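import Mathlib.Topology.Sheaves.Presheaf
import Mathlib.Tactic.Monotonicity.Lemmas
import Mathlib.Algebra.Order.Star.Real
import Mathlib.Analysis.InnerProductSpace.Calculus
import Mathlib.Analysis.SpecialFunctions.SmoothTransition
import Mathlib.MeasureTheory.Integral.IntervalIntegral.AbsolutelyContinuousFun
import Mathlib.Combinatorics.SimpleGraph.Basic
import Mathlib.Analysis.ODE.ExistUnique
import Mathlib.RingTheory.PiTensorProduct
import Mathlib.MeasureTheory.SpecificCodomains.WithLp
import Pool.Agent.MP_3afe9c_an.Defs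

-- ======== part 0: formerly Pool.Agent.MP_3afe9c_an.Machine
section MrgPart0

/-!
An infinite Tower of Hanoi machine with three real registers.  Every disk carries a Gray bit,
a direction bit and a digit.  Removing the smallest disk gives the same machine at half speed, and
this bounds the number of overflows along a pseudo-orbit by its total squared error.
-/

set_option autoImplicit false

open Finset

namespace Pool.Agent.MP_3afe9c_an

abbrev Peg := Fin 3
abbrev J := Fin 9
abbrev Sym := Bool × Bool × Fin 128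
abbrev Y := J → ℝ

noncomputable def enc : Sym ≃ (J → Bool) := Fintype.equivOfCardEq (by simp)

def dir (b : Bool) : Peg := if b then 1 else 2

noncomputable def off (σ : J → Bool) : Y := fun j => if σ j then 1 / 32 else -1 / 32
noncomputable def bits (y : Y) : J → Bool := fun j => decide (0 < y j)
noncomputable def sym (y : Y) : Sym := enc.symm (bits y)
noncomputable def push (a : Sym) (y : Y) : Y := fun j => off (enc a) j + y j / 4
noncomputable def pop (y : Y) : Y := fun j => 4 * (y j - off (bits y) j)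
def W (y : Y) : Prop := ∀ j, 1 / 64 ≤ |y j| ∧ |y j| ≤ 3 / 64
def Q (y : Y) : Prop := ∀ j, |y j| ≤ 1 / 16
noncomputable def app (l : List Sym) (y : Y) : Y := l.foldr push (pop y)

def reset (a : Sym) : Sym := if a.2.2 = 127 then (a.1, a.2.1, 0) else a
def carry (a c : Sym) : Bool := a.1 && decide (c.2.2 = 127) && decide (a.2.2 ≠ 127)
def newS (δ : Bool) (a c : Sym) : Sym :=
  (!a.1, if a.1 then c.2.1 else δ, if carry a c then a.2.2 + 1 else a.2.2)
def newT (a c : Sym) : Sym := if carry a c then (c.1, c.2.1, 0) else c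

def mvp (δ : Bool) (S T : Peg) (σ : Peg → Sym) (X : Peg) : List Sym :=
  if X = S then [] else if X = T then [newS δ (σ S) (σ T), newT (σ S) (σ T)] else [σ X]

def prog (d : Bool) (p : Peg) (b : Bool) (σ : Peg → Sym) (X : Peg) : List Sym :=
  if b then
    (if X = p then [reset (σ p)]
      else mvp (!(σ p).2.1) (p + dir (!(σ p).2.1)) (p + dir (σ p).2.1) σ X)
  else mvp d p (p + dir d) σ X

structure St where
  p : Peg
  b : Bool
  y : Peg → Y

noncomputable def St.σ (z : St) : Peg → Sym := fun X => sym (z.y X)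

noncomputable def step (d : Bool) (z : St) (X : Peg) : Y := app (prog d z.p z.b z.σ X) (z.y X)

def nextp (d : Bool) (p : Peg) (b : Bool) : Peg := if b then p else p + dir d

noncomputable def ovf (z : St) : ℕ := if z.b = true ∧ (z.σ z.p).2.2 = 127 then 1 else 0

/-- One transition with error at most `e`. -/
def Tr (d : Bool) (z w : St) (e : ℝ) : Prop :=
  w.p = nextp d z.p z.b ∧ w.b = !z.b ∧ ∀ X j, |w.y X j - step d z X j| ≤ e

def Val (z : St) : Prop := ∀ X, W (z.y X)

/-! Elementary facts on registers. -/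

lemma W.q {y : Y} (h : W y) : Q y := fun j => by have := (h j).2; linarith

lemma W.pop {y : Y} (h : W y) : Q (pop y) := by
  intro j
  have := h j
  simp only [Pool.Agent.MP_3afe9c_an.pop, off, bits, decide_eq_true_eq]
  split_ifs with h0
  · rw [abs_of_pos h0] at this; rw [abs_le]; constructor <;> linarith [this.1, this.2]
  · rw [abs_of_nonpos (not_lt.mp h0)] at this; rw [abs_le]; constructor <;> linarith [this.1, this.2]

lemma Q.push {y : Y} (h : Q y) (a : Sym) : W (push a y) := by
  intro j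
  have := abs_le.mp (h j)
  simp only [Pool.Agent.MP_3afe9c_an.push, off]
  split_ifs with h0
  · rw [abs_of_pos (by linarith [this.1])]; constructor <;> linarith [this.1, this.2]
  · rw [abs_of_neg (by linarith [this.2])]; constructor <;> linarith [this.1, this.2]

lemma Q.bits_push {y : Y} (h : Q y) (a : Sym) : bits (Pool.Agent.MP_3afe9c_an.push a y) = enc a := by
  funext j
  have := abs_le.mp (h j)
  simp only [bits, Pool.Agent.MP_3afe9c_an.push, off]
  by_cases h0 : enc a j = true
  · simp only [h0, if_true, decide_eq_true_eq]; linarith [this.1]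
  · simp only [h0]
    simp only [Bool.not_eq_true] at h0
    simp only [Bool.false_eq_true, if_false, decide_eq_false_iff_not, not_lt]; linarith [this.2]

lemma Q.sym_push {y : Y} (h : Q y) (a : Sym) : sym (Pool.Agent.MP_3afe9c_an.push a y) = a := by
  simp [sym, h.bits_push]

lemma Q.pop_push {y : Y} (h : Q y) (a : Sym) : pop (Pool.Agent.MP_3afe9c_an.push a y) = y := by
  funext j
  simp only [pop, h.bits_push]
  simp only [Pool.Agent.MP_3afe9c_an.push]; ring

lemma push_pop (y : Y) : push (sym y) (pop y) = y := by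
  funext j
  simp only [push, sym, Equiv.apply_symm_apply, pop]; ring

lemma bits_near {u y : Y} (h : W u) (hy : ∀ j, |y j - u j| < 1 / 64) : bits y = bits u := by
  funext j
  have h1 := (h j).1
  have h2 := abs_lt.mp (hy j)
  simp only [bits]
  by_cases h0 : 0 < u j
  · rw [abs_of_pos h0] at h1
    simp only [h0, decide_true, decide_eq_true_eq]; linarith [h2.1]
  · rw [abs_of_nonpos (not_lt.mp h0)] at h1
    simp only [h0, decide_false, decide_eq_false_iff_not, not_lt]; linarith [h2.2]

lemma app_nil (y : Y) : app [] y = pop y := rfl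
lemma app_one (a : Sym) (y : Y) : app [a] y = push a (pop y) := rfl
lemma app_two (a c : Sym) (y : Y) : app [a, c] y = push a (push c (pop y)) := rfl

lemma app_q {y : Y} (h : W y) (l : List Sym) : Q (app l y) := by
  induction l with
  | nil => exact h.pop
  | cons a l ih => exact (Q.push ih a).q

/-! Peg arithmetic. -/

lemma add_dir_ne (p : Peg) (d : Bool) : p + dir d ≠ p := by revert p d; decide
lemma add_dir_not (p : Peg) (d : Bool) : p + dir d + dir (!d) = p := by revert p d; decide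
lemma add_dir_dir (p : Peg) (d : Bool) : p + dir d + dir d = p + dir (!d) := by revert p d; decide
lemma add_dir_ne_not (p : Peg) (d : Bool) : p + dir d ≠ p + dir (!d) := by revert p d; decide
lemma peg_cases (p : Peg) (d : Bool) (X : Peg) : X = p ∨ X = p + dir d ∨ X = p + dir (!d) := by
  revert p d X; decide

lemma mvp_congr {δ : Bool} {S T X : Peg} {σ σ' : Peg → Sym} (hS : σ S = σ' S) (hT : σ T = σ' T)
    (hX : σ X = σ' X) : mvp δ S T σ X = mvp δ S T σ' X := by
  simp only [mvp, hS, hT, hX]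

lemma reset_ne (a : Sym) : (reset a).2.2 ≠ 127 := by
  unfold reset; split_ifs with h
  · simp
  · exact h

lemma reset_fst (a : Sym) : (reset a).1 = a.1 := by unfold reset; split_ifs <;> rfl
lemma reset_snd (a : Sym) : (reset a).2.1 = a.2.1 := by unfold reset; split_ifs <;> rfl

lemma newT_eq {a : Sym} (c : Sym) (h : a.2.2 ≠ 127) : newT a c = if a.1 then reset c else c := by
  unfold newT carry reset
  by_cases h1 : a.1 = true <;> by_cases h2 : c.2.2 = 127 <;> simp [h, h1, h2]

lemma count_eq (d : Bool) (α β : Sym) (hv : α.2.2 ≠ 127) :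
    127 * (if (newS d α β).2.2 = 127 then 1 else 0) + ((reset (newS d α β)).2.2 : ℕ) =
      (α.2.2 : ℕ) + if carry α β then 1 else 0 := by
  have hlt : (α.2.2 : ℕ) < 127 := by
    have := α.2.2.isLt
    have h' : (α.2.2 : ℕ) ≠ 127 := fun h => hv (Fin.ext h)
    omega
  have hval : ((newS d α β).2.2 : ℕ) = (α.2.2 : ℕ) + if carry α β then 1 else 0 := by
    simp only [newS]
    split_ifs
    · rw [Fin.val_add_one_of_lt]; exact hlt
    · rfl
  rw [← hval]
  unfold reset
  split_ifs with hc
  · rw [hc]; rfl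
  · simp

/-- The programs of the machine and of the renormalised machine. -/
lemma prog_ren (d : Bool) (p : Peg) (α β : Sym) (σ σ' : Peg → Sym)
    (hq : σ (p + dir d) = newS d α β) (hq' : σ' (p + dir d) = β)
    (hσ : ∀ X, X ≠ p + dir d → σ' X = σ X) :
    (∀ X, X ≠ p + dir d →
      prog d (p + dir d) true σ X = prog (!d) (if α.1 then p + dir d else p) α.1 σ' X) ∧
    prog (!d) (if α.1 then p + dir d else p) α.1 σ' (p + dir d) =
      [if α.1 then reset β else β] := by
  by_cases h : α.1 = true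
  · simp only [h, if_true, prog, hq, hq', newS]
    refine ⟨fun X hX => ?_, trivial⟩
    simp only [hX, if_false]
    exact mvp_congr (hσ _ (add_dir_ne _ _)).symm (hσ _ (add_dir_ne _ _)).symm (hσ _ hX).symm
  · have h' : α.1 = false := by simpa using h
    simp only [h', prog, hq, newS, if_true, Bool.false_eq_true, if_false]
    refine ⟨fun X hX => ?_, ?_⟩
    · simp only [hX, if_false, add_dir_not, add_dir_dir]
      exact mvp_congr (hσ _ (add_dir_ne _ _).symm).symm (hσ _ (add_dir_ne_not _ _).symm).symm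
        (hσ _ hX).symm
    · simp only [mvp, add_dir_ne, add_dir_ne_not, if_false, hq']

/-- The renormalised state read off two consecutive states. -/
noncomputable def ren (d : Bool) (z w : St) : St :=
  ⟨if (z.σ z.p).1 then z.p + dir d else z.p, (z.σ z.p).1,
    fun X => if X = z.p + dir d then z.y X else w.y X⟩

lemma ren_val {d : Bool} {z w : St} (hz : Val z) (hw : Val w) : Val (ren d z w) := by
  intro X
  simp only [ren]
  split_ifs
  · exact hz X
  · exact hw X

lemma ren_step {d : Bool} {z0 z1 z2 z3 : St} {e0 e1 e2 : ℝ} (hb : z0.b = false)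
    (hv : (z0.σ z0.p).2.2 ≠ 127) (v0 : Val z0) (v1 : Val z1)
    (t0 : Tr d z0 z1 e0) (t1 : Tr d z1 z2 e1) (t2 : Tr d z2 z3 e2)
    (h0 : e0 < 1 / 64) (h1 : e1 < 1 / 64) :
    Tr (!d) (ren d z0 z1) (ren d z2 z3) (4 * (e0 + e1 + e2)) ∧ z2.b = false ∧
      (z2.σ z2.p).2.2 ≠ 127 ∧
      127 * ovf z1 + ((z2.σ z2.p).2.2 : ℕ) = ((z0.σ z0.p).2.2 : ℕ) + ovf (ren d z0 z1) := by
  obtain ⟨p1, b1, y1⟩ := t0
  obtain ⟨p2, b2, y2⟩ := t1
  obtain ⟨p3, b3, y3⟩ := t2
  set p := z0.p with hp
  set q := p + dir d with hq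
  set α := z0.σ p with hα
  set β := z0.σ q with hβ
  have hb1 : z1.b = true := by simp [b1, hb]
  have hb2 : z2.b = false := by simp [b2, hb1]
  have hp1 : z1.p = q := by simp [p1, nextp, hb, hq]
  have hp2 : z2.p = q := by simp [p2, nextp, hb1, hp1]
  have he0 : 0 ≤ e0 := (abs_nonneg _).trans (y1 0 0)
  have he1 : 0 ≤ e1 := (abs_nonneg _).trans (y2 0 0)
  have he2 : 0 ≤ e2 := (abs_nonneg _).trans (y3 0 0)
  -- the register under the smallest disk
  set u := push (newT α β) (pop (z0.y q)) with hu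
  have huW : W u := (v0 q).pop.push _
  have s0 : step d z0 q = push (newS d α β) u := by
    simp only [step, prog, hb, Bool.false_eq_true, if_false, mvp, ← hp, ← hq]
    simp only [hq, add_dir_ne, if_false, if_true]
    rfl
  have hbits1 : bits (z1.y q) = enc (newS d α β) := by
    rw [← huW.q.bits_push]
    refine bits_near (huW.q.push _) fun j => ?_
    rw [← s0]; exact (y1 q j).trans_lt h0
  have hσ1 : z1.σ q = newS d α β := by simp [St.σ, sym, hbits1]
  have s1 : step d z1 q = push (reset (newS d α β)) (pop (z1.y q)) := by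
    simp only [step, prog, hb1, hp1, if_true, hσ1]; rfl
  have hbits2 : bits (z2.y q) = enc (reset (newS d α β)) := by
    rw [← (v1 q).pop.bits_push]
    refine bits_near ((v1 q).pop.push _) fun j => ?_
    rw [← s1]; exact (y2 q j).trans_lt h1
  have hσ2 : z2.σ q = reset (newS d α β) := by simp [St.σ, sym, hbits2]
  have hr : ∀ X, X ≠ q → (ren d z0 z1).y X = z1.y X := fun X hX => by
    simp only [ren, ← hp, ← hq, hX, if_false]
  have hrq : (ren d z0 z1).y q = z0.y q := by simp only [ren, ← hp, ← hq, if_true]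
  have hpr := prog_ren d p α β z1.σ (ren d z0 z1).σ hσ1 (by simp only [St.σ, ← hq, hrq]; rfl)
    (fun X hX => by simp only [St.σ, hr X hX])
  have hrp : (ren d z0 z1).p = if α.1 then q else p := rfl
  have hrb : (ren d z0 z1).b = α.1 := rfl
  have sr : ∀ X, X ≠ q → step (!d) (ren d z0 z1) X = step d z1 X := fun X hX => by
    simp only [step, hrp, hrb, hp1, hb1, hr X hX]
    rw [hpr.1 X hX]
  have srq : step (!d) (ren d z0 z1) q = u := by
    simp only [step, hrp, hrb, hrq]
    rw [hpr.2, hu, newT_eq β hv]; rfl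
  have hg2 : (z2.σ z2.p).1 = !α.1 := by rw [hp2, hσ2, reset_fst]; rfl
  refine ⟨⟨?_, ?_, ?_⟩, hb2, ?_, ?_⟩
  · have : (ren d z2 z3).p = if (z2.σ z2.p).1 then z2.p + dir d else z2.p := rfl
    rw [this, hg2, hp2, hrp, hrb]
    cases α.1 <;> simp [hq, add_dir_dir, nextp]
  · simp only [ren, hg2, ← hp, ← hα]
  · intro X j
    have hr2 : (ren d z2 z3).y X = if X = q + dir d then z2.y X else z3.y X := by
      simp only [ren, hp2]
    rw [hr2]
    rcases peg_cases q d X with rfl | rfl | rfl
    · rw [if_neg (add_dir_ne _ _).symm, srq]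
      have s2 : step d z2 q = pop (z2.y q) := by
        simp only [step, prog, hb2, hp2, Bool.false_eq_true, if_false, mvp, if_true]; rfl
      have a0 := abs_le.mp (y1 q j)
      have a1 := abs_le.mp (y2 q j)
      have a2 := abs_le.mp (y3 q j)
      rw [s0] at a0; rw [s1] at a1; rw [s2] at a2
      simp only [push, pop, hbits1, hbits2] at a0 a1 a2
      rw [abs_le]; constructor <;> linarith [a0.1, a0.2, a1.1, a1.2, a2.1, a2.2]
    · rw [if_pos rfl, sr _ (add_dir_ne _ _)]
      exact (y2 _ j).trans (by linarith)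
    · rw [if_neg (add_dir_ne_not _ _).symm, sr _ (add_dir_ne _ _)]
      have s2 : step d z2 (q + dir (!d)) = z2.y (q + dir (!d)) := by
        simp only [step, prog, hb2, hp2, Bool.false_eq_true, if_false, mvp, add_dir_ne,
          (add_dir_ne_not _ _).symm]
        exact push_pop _
      have a1 := abs_le.mp (y2 (q + dir (!d)) j)
      have a2 := abs_le.mp (y3 (q + dir (!d)) j)
      rw [s2] at a2
      rw [abs_le]; constructor <;> linarith [a1.1, a1.2, a2.1, a2.2]
  · rw [hp2, hσ2]; exact reset_ne _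
  · have ho1 : ovf z1 = if (newS d α β).2.2 = 127 then 1 else 0 := by
      simp only [ovf, hb1, hp1, hσ1, true_and]
    have hor : ovf (ren d z0 z1) = if carry α β then 1 else 0 := by
      simp only [ovf, hrp, hrb, carry]
      by_cases h : α.1 = true
      · have : (ren d z0 z1).σ q = β := by simp only [St.σ, hrq]; rfl
        simp [h, this, hv]
      · simp [h]
    rw [ho1, hor, hp2, hσ2]
    exact count_eq d α β hv

/-- A pseudo-orbit of length `L` with errors `e`. -/
def Orb (d : Bool) (z : ℕ → St) (e : ℕ → ℝ) (L : ℕ) : Prop :=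
  (∀ n, n ≤ L → Val (z n)) ∧ ∀ n, n < L → Tr d (z n) (z (n + 1)) (e n)

lemma ovf_le (z : St) : ovf z ≤ 1 := by unfold ovf; split_ifs <;> simp

lemma ovf_false {z : St} (h : z.b = false) : ovf z = 0 := by simp [ovf, h]

lemma sum_shift_le {u : ℕ → ℝ} (hu : ∀ n, 0 ≤ u n) {a K L : ℕ} (h : a + K ≤ L) :
    ∑ n ∈ range K, u (a + n) ≤ ∑ n ∈ range L, u n := by
  obtain ⟨c, rfl⟩ := Nat.exists_eq_add_of_le h
  rw [sum_range_add, sum_range_add]
  have h1 : 0 ≤ ∑ n ∈ range a, u n := sum_nonneg fun n _ => hu n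
  have h2 : 0 ≤ ∑ n ∈ range c, u (a + K + n) := sum_nonneg fun n _ => hu _
  linarith

lemma sum_pairs {M : Type} [AddCommMonoid M] (u : ℕ → M) (K : ℕ) :
    ∑ k ∈ range K, (u (2 * k) + u (2 * k + 1)) = ∑ n ∈ range (2 * K), u n := by
  induction K with
  | zero => simp
  | succ K ih =>
    rw [sum_range_succ, ih, show 2 * (K + 1) = 2 * K + 1 + 1 by ring, sum_range_succ,
      sum_range_succ, add_assoc]

/-- After a transition from a state with `b = true` the smallest disk has digit below the top. -/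
lemma reset_after {d : Bool} {z w : St} {e : ℝ} (hb : z.b = true) (hz : Val z) (t : Tr d z w e)
    (he : e < 1 / 64) : w.b = false ∧ (w.σ w.p).2.2 ≠ 127 := by
  obtain ⟨p1, b1, y1⟩ := t
  have hp : w.p = z.p := by simp [p1, nextp, hb]
  have s1 : step d z z.p = push (reset (z.σ z.p)) (pop (z.y z.p)) := by
    simp only [step, prog, hb, if_true]; rfl
  have hbits : bits (w.y z.p) = enc (reset (z.σ z.p)) := by
    rw [← (hz z.p).pop.bits_push]
    refine bits_near ((hz z.p).pop.push _) fun j => ?_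
    rw [← s1]; exact (y1 z.p j).trans_lt he
  refine ⟨by simp [b1, hb], ?_⟩
  have : w.σ w.p = reset (z.σ z.p) := by simp [St.σ, sym, hp, hbits]
  rw [this]; exact reset_ne _

theorem overflow_le (L : ℕ) : ∀ (d : Bool) (z : ℕ → St) (e : ℕ → ℝ), Orb d z e L →
    ((∑ n ∈ range L, ovf (z n) : ℕ) : ℝ) ≤ 4 + 20480 * ∑ n ∈ range L, e n ^ 2 := by
  induction L using Nat.strong_induction_on with
  | _ L ih =>
  intro d z e hO
  have hS : 0 ≤ ∑ n ∈ range L, e n ^ 2 := sum_nonneg fun n _ => sq_nonneg _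
  by_cases hL : L ≤ 4
  · have : ∑ n ∈ range L, ovf (z n) ≤ 4 := by
      calc _ ≤ ∑ _n ∈ range L, 1 := sum_le_sum fun n _ => ovf_le _
        _ ≤ 4 := by simpa using hL
    have h' : ((∑ n ∈ range L, ovf (z n) : ℕ) : ℝ) ≤ 4 := by exact_mod_cast this
    linarith
  by_cases hbig : ∃ n, n < L ∧ 1 / 64 ≤ e n
  · obtain ⟨n0, hn0, hbig⟩ := hbig
    obtain ⟨c, rfl⟩ : ∃ c, L = n0 + 1 + c := ⟨L - (n0 + 1), by omega⟩
    have h1 := ih n0 (by omega) d z e
      ⟨fun n hn => hO.1 n (by omega), fun n hn => hO.2 n (by omega)⟩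
    have h2 := ih c (by omega) d (fun n => z (n0 + 1 + n)) (fun n => e (n0 + 1 + n))
      ⟨fun n hn => hO.1 _ (by omega), fun n hn => hO.2 _ (by omega)⟩
    rw [sum_range_add, sum_range_succ, sum_range_add, sum_range_succ]
    have h3 : ((ovf (z n0) : ℕ) : ℝ) ≤ 1 := by exact_mod_cast ovf_le _
    have h4 : (1 / 64 : ℝ) ^ 2 ≤ e n0 ^ 2 := by gcongr
    push_cast at h1 h2 ⊢
    nlinarith
  push Not at hbig
  -- first time with `b = false` and small digit
  obtain ⟨m, hm2, hmb, hmv, hm0⟩ : ∃ m, m ≤ 2 ∧ (z m).b = false ∧ ((z m).σ (z m).p).2.2 ≠ 127 ∧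
      ∑ n ∈ range m, ovf (z n) ≤ 1 := by
    cases h0 : (z 0).b
    · have hb1 : (z 1).b = true := by rw [(hO.2 0 (by omega)).2.1, h0]; rfl
      have := reset_after hb1 (hO.1 1 (by omega)) (hO.2 1 (by omega)) (hbig 1 (by omega))
      refine ⟨2, le_rfl, this.1, this.2, ?_⟩
      simp [sum_range_succ, ovf_false h0, ovf_le]
    · have := reset_after h0 (hO.1 0 (by omega)) (hO.2 0 (by omega)) (hbig 0 (by omega))
      exact ⟨1, by omega, this.1, this.2, by simp [ovf_le]⟩
  set K := (L - m - 1) / 2 with hK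
  have hK1 : m + 2 * K + 1 ≤ L := by omega
  have hK2 : L ≤ m + 2 * K + 2 := by omega
  set z' : ℕ → St := fun k => ren d (z (m + 2 * k)) (z (m + 2 * k + 1)) with hz'
  set e' : ℕ → ℝ := fun k => 4 * (e (m + 2 * k) + e (m + 2 * k + 1) + e (m + 2 * k + 2)) with he'
  have key : ∀ k, k ≤ K → (z (m + 2 * k)).b = false ∧
      ((z (m + 2 * k)).σ (z (m + 2 * k)).p).2.2 ≠ 127 ∧
      (∀ i, i < k → Tr (!d) (z' i) (z' (i + 1)) (e' i)) ∧
      127 * ∑ i ∈ range k, (ovf (z (m + 2 * i)) + ovf (z (m + (2 * i + 1)))) +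
        (((z (m + 2 * k)).σ (z (m + 2 * k)).p).2.2 : ℕ) =
        (((z m).σ (z m).p).2.2 : ℕ) + ∑ i ∈ range k, ovf (z' i) := by
    intro k
    induction k with
    | zero => intro _; exact ⟨hmb, hmv, fun i hi => absurd hi (by omega), by simp⟩
    | succ k ihk =>
      intro hk
      obtain ⟨a1, a2, a3, a4⟩ := ihk (by omega)
      have := ren_step a1 a2 (hO.1 _ (by omega)) (hO.1 (m + 2 * k + 1) (by omega))
        (hO.2 _ (by omega)) (hO.2 (m + 2 * k + 1) (by omega)) (hO.2 (m + 2 * k + 2) (by omega))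
        (hbig _ (by omega)) (hbig _ (by omega))
      obtain ⟨b1, b2, b3, b4⟩ := this
      refine ⟨b2, b3, fun i hi => ?_, ?_⟩
      · rcases Nat.lt_succ_iff_lt_or_eq.mp hi with h | rfl
        · exact a3 i h
        · exact b1
      · rw [sum_range_succ, sum_range_succ, ovf_false a1]
        have e1 : m + 2 * (k + 1) = m + 2 * k + 1 + 1 := by ring
        have e2 : m + (2 * k + 1) = m + 2 * k + 1 := by ring
        rw [e1, e2]
        simp only [hz'] at a4 ⊢
        omega
  obtain ⟨k1, k2, k3, k4⟩ := key K le_rfl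
  have hO' : Orb (!d) z' e' K :=
    ⟨fun n hn => ren_val (hO.1 _ (by omega)) (hO.1 _ (by omega)), k3⟩
  have h1 := ih K (by omega) (!d) z' e' hO'
  have h2 : ∑ n ∈ range K, e' n ^ 2 ≤ 96 * ∑ n ∈ range L, e n ^ 2 := by
    have c1 : ∑ n ∈ range K, (e (m + 2 * n) ^ 2 + e (m + (2 * n + 1)) ^ 2) ≤
        ∑ n ∈ range L, e n ^ 2 := by
      rw [sum_pairs (fun n => e (m + n) ^ 2)]
      exact sum_shift_le (u := fun n => e n ^ 2) (fun n => sq_nonneg _) (by omega)
    have c2 : ∑ n ∈ range K, (e (m + 1 + 2 * n) ^ 2 + e (m + 1 + (2 * n + 1)) ^ 2) ≤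
        ∑ n ∈ range L, e n ^ 2 := by
      rw [sum_pairs (fun n => e (m + 1 + n) ^ 2)]
      exact sum_shift_le (u := fun n => e n ^ 2) (fun n => sq_nonneg _) (by omega)
    calc _ ≤ ∑ n ∈ range K, 48 * ((e (m + 2 * n) ^ 2 + e (m + (2 * n + 1)) ^ 2) +
          (e (m + 1 + 2 * n) ^ 2 + e (m + 1 + (2 * n + 1)) ^ 2)) := by
          refine sum_le_sum fun n _ => ?_
          simp only [he']
          rw [show m + (2 * n + 1) = m + 2 * n + 1 by ring,
            show m + 1 + (2 * n + 1) = m + 2 * n + 2 by ring]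
          nlinarith [sq_nonneg (e (m + 1 + 2 * n)), sq_nonneg (e (m + 2 * n) - e (m + 2 * n + 1)),
            sq_nonneg (e (m + 2 * n) - e (m + 2 * n + 2)),
            sq_nonneg (e (m + 2 * n + 1) - e (m + 2 * n + 2))]
      _ ≤ _ := by rw [← mul_sum, sum_add_distrib]; linarith
  have h3 : ∑ n ∈ range L, ovf (z n) ≤
      2 + ∑ i ∈ range K, (ovf (z (m + 2 * i)) + ovf (z (m + (2 * i + 1)))) := by
    rw [sum_pairs (fun n => ovf (z (m + n)))]
    calc _ ≤ ∑ n ∈ range (m + 2 * K + 2), ovf (z n) :=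
          sum_le_sum_of_subset (range_subset_range.mpr hK2)
      _ ≤ _ := by
          rw [sum_range_succ, sum_range_succ, sum_range_add, ovf_false k1]
          have := ovf_le (z (m + 2 * K + 1))
          omega
  have h4 : 127 * ∑ n ∈ range L, ovf (z n) ≤ 381 + ∑ i ∈ range K, ovf (z' i) := by
    have := ((z m).σ (z m).p).2.2.isLt
    omega
  have h5 : 127 * ((∑ n ∈ range L, ovf (z n) : ℕ) : ℝ) ≤
      381 + ((∑ i ∈ range K, ovf (z' i) : ℕ) : ℝ) := by exact_mod_cast h4
  nlinarith

lemma sum_mod {M : Type} [AddCommMonoid M] (u : ℕ → M) (L k : ℕ) :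
    ∑ n ∈ range (k * L), u (n % L) = k • ∑ n ∈ range L, u n := by
  induction k with
  | zero => simp
  | succ k ih =>
    rw [add_mul, one_mul, sum_range_add, ih, add_smul, one_smul]
    congr 1
    refine sum_congr rfl fun n hn => ?_
    rw [Nat.mul_add_mod_self_right, Nat.mod_eq_of_lt (mem_range.mp hn)]

/-- A closed pseudo-orbit through an overflow state has total squared error bounded below. -/
theorem loop_cost {d : Bool} {z : ℕ → St} {e : ℕ → ℝ} {L : ℕ} (hL : 0 < L) (hO : Orb d z e L)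
    (hc : z L = z 0) (ho : ovf (z 0) = 1) : 1 / 40960 ≤ ∑ n ∈ range L, e n ^ 2 := by
  have hO' : Orb d (fun n => z (n % L)) (fun n => e (n % L)) (8 * L) := by
    refine ⟨fun n _ => hO.1 _ (Nat.mod_lt _ hL).le, fun n _ => ?_⟩
    have := hO.2 (n % L) (Nat.mod_lt _ hL)
    have h2 : z ((n + 1) % L) = z (n % L + 1) := by
      have hlt := Nat.mod_lt n hL
      rw [← Nat.mod_add_mod]
      rcases Nat.lt_or_ge (n % L + 1) L with h | h
      · rw [Nat.mod_eq_of_lt h]
      · have : n % L + 1 = L := by omega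
        rw [this, Nat.mod_self, hc]
    simpa only [h2] using this
  have h := overflow_le _ _ _ _ hO'
  rw [sum_mod (fun n => ovf (z n)), sum_mod (fun n => e n ^ 2)] at h
  have h1 : 1 ≤ ∑ n ∈ range L, ovf (z n) := by
    rw [← ho]
    exact single_le_sum (f := fun n => ovf (z n)) (fun _ _ => Nat.zero_le _) (mem_range.mpr hL)
  have h2 : (1 : ℝ) ≤ ((∑ n ∈ range L, ovf (z n) : ℕ) : ℝ) := by exact_mod_cast h1
  simp only [smul_eq_mul, nsmul_eq_mul] at h
  push_cast at h h2
  linarith

end Pool.Agent.MP_3afe9c_an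

end MrgPart0

-- ======== part 1: formerly Pool.Agent.MP_3afe9c_an.Chain
section MrgPart1

/-!
Pseudo-orbits of the machine with arbitrarily small jumps and infinitely many overflows.
-/

set_option autoImplicit false

open Finset

namespace Pool.Agent.MP_3afe9c_an

/-- Registers all of whose digits are valid. -/
def K (y : Y) : Prop := ∀ n, W (pop^[n] y)

lemma K.w {y : Y} (h : K y) : W y := h 0
lemma K.pop {y : Y} (h : K y) : K (pop y) := fun n => h (n + 1)
lemma K.push {y : Y} (h : K y) (a : Sym) : K (push a y) := by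
  intro n
  cases n with
  | zero => exact h.w.q.push a
  | succ n => rw [Function.iterate_succ_apply, h.w.q.pop_push]; exact h n

lemma K.app {y : Y} (h : K y) (l : List Sym) : K (app l y) := by
  induction l with
  | nil => exact h.pop
  | cons a l ih => exact K.push ih a

noncomputable def ystar : Y := fun j => 4 / 3 * off (enc (true, true, 127)) j

lemma ystar_eq : push (true, true, 127) ystar = ystar := by
  funext j; simp only [push, ystar]; ring

lemma ystar_q : Q ystar := by
  intro j; simp only [ystar, off]; split_ifs <;> norm_num [abs_of_pos, abs_of_neg]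

lemma ystar_k : K ystar := by
  have h : pop ystar = ystar := by
    conv_lhs => rw [← ystar_eq]
    exact ystar_q.pop_push _
  intro n
  rw [Function.iterate_fixed h, ← ystar_eq]
  exact ystar_q.push _

lemma ystar_sym : sym ystar = (true, true, 127) := by
  rw [← ystar_eq]; exact ystar_q.sym_push _

/-- Pseudo-orbit with jumps of size `c` only under the smallest disk after a step with `b = true`.
-/
def Good (d : Bool) (c : ℝ) (z : ℕ → St) : Prop :=
  (∀ n X, K ((z n).y X)) ∧
  (∀ n, (z (n + 1)).p = nextp d (z n).p (z n).b ∧ (z (n + 1)).b = !(z n).b ∧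
    ∀ X i, |(z (n + 1)).y X i - step d (z n) X i| ≤
      if (z n).b = true ∧ X = (z n).p then c else 0) ∧
  ∀ N, ∃ n, N ≤ n ∧ ovf (z n) = 1

noncomputable def base (d : Bool) : ℕ → St
  | 0 => ⟨0, true, fun _ => ystar⟩
  | n + 1 => ⟨nextp d (base d n).p (base d n).b, !(base d n).b,
      fun X => if (base d n).b = true ∧ X = (base d n).p then ystar else step d (base d n) X⟩

lemma base_k (d : Bool) (n : ℕ) : ∀ X, K ((base d n).y X) := by
  induction n with
  | zero => exact fun _ => ystar_k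
  | succ n ih =>
    intro X
    simp only [base]
    split_ifs
    · exact ystar_k
    · exact (ih X).app _

lemma base_even (d : Bool) (k : ℕ) : (base d (2 * k)).b = true ∧
    ((base d (2 * k)).σ (base d (2 * k)).p).2.2 = 127 := by
  induction k with
  | zero => exact ⟨rfl, by simp [base, St.σ, ystar_sym]⟩
  | succ k ih =>
    set z0 := base d (2 * k) with h0
    set z1 := base d (2 * k + 1) with h1
    have b1 : z1.b = false := by simp only [h1, base, ← h0, ih.1]; rfl
    have p1 : z1.p = z0.p := by simp only [h1, base, ← h0, ih.1, nextp, if_true]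
    have y1 : z1.y z1.p = ystar := by
      rw [p1]; simp only [h1, base, ← h0, ih.1, and_self, if_true]
    have hk := base_k d (2 * k + 1)
    rw [show 2 * (k + 1) = 2 * k + 1 + 1 by ring]
    rw [base, ← h1]
    simp only [b1, nextp, St.σ, Bool.false_eq_true, false_and, if_false, step, prog,
      mvp, add_dir_ne, if_true, y1, ystar_sym, app_two]
    refine ⟨rfl, ?_⟩
    rw [((hk _).w.pop.push _).q.sym_push]
    simp [newS, carry]

lemma good_base (d : Bool) : Good d (1 / 8) (base d) := by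
  refine ⟨base_k d, fun n => ⟨rfl, rfl, fun X i => ?_⟩, fun N => ⟨2 * N, by omega, ?_⟩⟩
  · simp only [base]
    split_ifs
    · have h1 := abs_le.mp (ystar_q i)
      have h2 := abs_le.mp (app_q (base_k d n X).w (prog d (base d n).p (base d n).b (base d n).σ X) i)
      simp only [step]
      rw [abs_le]; constructor <;> linarith [h1.1, h1.2, h2.1, h2.2]
    · simp
  · simp [ovf, (base_even d N).1, (base_even d N).2]

/-- Peg of the new smallest disk. -/
def lp (d : Bool) (w : St) : Peg := if w.b then w.p + dir (!d) else w.p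

noncomputable def liftF (d : Bool) (w : St) (a : Sym) : St :=
  ⟨lp d w, false, fun X => if X = lp d w then push a (w.y X) else w.y X⟩

noncomputable def liftT (d : Bool) (w : St) (a : Sym) : St :=
  ⟨lp d w + dir d, true, step d (liftF d w a)⟩

noncomputable def nexta (d : Bool) (w : St) (a : Sym) : Sym :=
  reset (newS d a (w.σ (lp d w + dir d)))

lemma lift_facts (d : Bool) (w : St) (a : Sym) (hw : Val w) (ha : a.1 = w.b) (hv : a.2.2 ≠ 127) :
    (∀ X, X ≠ lp d w + dir d → step d (liftT d w a) X = step (!d) w X) ∧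
    step d (liftT d w a) (lp d w + dir d) =
      push (nexta d w a) (step (!d) w (lp d w + dir d)) ∧
    127 * ovf (liftT d w a) + ((nexta d w a).2.2 : ℕ) = (a.2.2 : ℕ) + ovf w := by
  set p := lp d w with hp
  set q := p + dir d with hq
  set β := w.σ q with hβ
  have hFp : (liftF d w a).σ p = a := by
    simp only [St.σ, liftF, ← hp, if_true]; exact (hw p).q.sym_push a
  have hFy : ∀ X, X ≠ p → (liftF d w a).y X = w.y X := fun X hX => by
    simp only [liftF, ← hp, hX, if_false]
  have hFq : (liftF d w a).σ q = β := by simp only [St.σ, hFy q (add_dir_ne _ _)]; rfl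
  have hst : ∀ X, step d (liftF d w a) X =
      app (mvp d p q (liftF d w a).σ X) ((liftF d w a).y X) := fun X => rfl
  set u := push (newT a β) (pop (w.y q)) with hu
  have huW : W u := (hw q).pop.push _
  have hTq : (liftT d w a).y q = push (newS d a β) u := by
    show step d (liftF d w a) q = _
    rw [hst, hFy q (add_dir_ne _ _)]
    simp only [mvp, hq, add_dir_ne, if_false, if_true]
    rw [← hq, hFp, hFq]; rfl
  have hTy : ∀ X, X ≠ q → (liftT d w a).y X = w.y X := by
    intro X hX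
    show step d (liftF d w a) X = _
    rw [hst]
    by_cases hXp : X = p
    · subst hXp
      simp only [mvp, if_true, app_nil, liftF, ← hp]
      exact (hw _).q.pop_push a
    · simp only [mvp, hX, hXp, if_false, St.σ, hFy X hXp]
      exact push_pop _
  have hTσ : (liftT d w a).σ q = newS d a β := by
    simp only [St.σ, hTq]; exact huW.q.sym_push _
  have hpr := prog_ren d p a β (liftT d w a).σ w.σ hTσ rfl
    (fun X hX => by simp only [St.σ, hTy X hX])
  have hwp : (if a.1 then p + dir d else p) = w.p := by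
    rw [ha, hp, lp]
    cases w.b
    · simp
    · simp only [if_true]
      have := add_dir_not w.p (!d)
      simpa using this
  rw [hwp, ha] at hpr
  have hsq : step (!d) w q = u := by
    simp only [step]
    rw [hpr.2, hu, newT_eq β hv, ha]; rfl
  refine ⟨fun X hX => ?_, ?_, ?_⟩
  · have : step d (liftT d w a) X = app (prog d q true (liftT d w a).σ X) ((liftT d w a).y X) := rfl
    rw [this, hpr.1 X hX, hTy X hX]; rfl
  · have : step d (liftT d w a) q = app (prog d q true (liftT d w a).σ q) ((liftT d w a).y q) := rfl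
    rw [this, hsq]
    simp only [prog, if_true, hTσ, app_one, hTq, huW.q.pop_push]
    rfl
  · have ho1 : ovf (liftT d w a) = if (newS d a β).2.2 = 127 then 1 else 0 := by
      have : ovf (liftT d w a) = if True ∧ ((liftT d w a).σ q).2.2 = 127 then 1 else 0 := by
        simp only [ovf, liftT, ← hp, ← hq]
      rw [this, hTσ]; simp only [true_and]
    have hor : ovf w = if carry a β then 1 else 0 := by
      simp only [ovf, carry, ← ha, ← hwp]
      by_cases h : a.1 = true
      · simp [h, hv, hβ, hq]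
      · simp [h]
    rw [ho1, hor]
    exact count_eq d a β hv

noncomputable def aseq (d : Bool) (w : ℕ → St) : ℕ → Sym
  | 0 => ((w 0).b, true, 0)
  | k + 1 => nexta d (w k) (aseq d w k)

noncomputable def lifted (d : Bool) (w : ℕ → St) (n : ℕ) : St :=
  if n % 2 = 0 then liftF d (w (n / 2)) (aseq d w (n / 2))
  else liftT d (w (n / 2)) (aseq d w (n / 2))

lemma lifted_even (d : Bool) (w : ℕ → St) (k : ℕ) :
    lifted d w (2 * k) = liftF d (w k) (aseq d w k) := by
  simp [lifted]

lemma lifted_odd (d : Bool) (w : ℕ → St) (k : ℕ) :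
    lifted d w (2 * k + 1) = liftT d (w k) (aseq d w k) := by
  have h1 : (2 * k + 1) % 2 = 1 := by omega
  have h2 : (2 * k + 1) / 2 = k := by omega
  simp [lifted, h1, h2]

lemma good_lift {d : Bool} {c : ℝ} {w : ℕ → St} (h : Good (!d) c w) (hc : 0 ≤ c) :
    Good d (c / 4) (lifted d w) := by
  obtain ⟨hK, hT, hO⟩ := h
  have hV : ∀ k, Val (w k) := fun k X => (hK k X).w
  have ha : ∀ k, (aseq d w k).1 = (w k).b ∧ (aseq d w k).2.2 ≠ 127 := by
    intro k
    induction k with
    | zero => exact ⟨rfl, by simp [aseq]⟩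
    | succ k ih =>
      refine ⟨?_, reset_ne _⟩
      rw [(hT k).2.1, ← ih.1]
      simp only [aseq, nexta, reset_fst, newS]
  have hF := fun k => lift_facts d (w k) (aseq d w k) (hV k) (ha k).1 (ha k).2
  have hKF : ∀ k X, K ((liftF d (w k) (aseq d w k)).y X) := by
    intro k X
    simp only [liftF]
    split_ifs
    · exact (hK k X).push _
    · exact hK k X
  have hlp : ∀ k, lp d (w (k + 1)) = lp d (w k) + dir d := by
    intro k
    simp only [lp, (hT k).1, (hT k).2.1, nextp]
    cases (w k).b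
    · simp only [Bool.not_false, if_true, Bool.false_eq_true, if_false]
      have := add_dir_dir (w k).p (!d)
      simpa using this
    · simp only [Bool.not_true, if_true, Bool.false_eq_true, if_false]
      have := add_dir_not (w k).p (!d)
      simpa using this.symm
  refine ⟨fun n X => ?_, fun n => ?_, fun N => ?_⟩
  · obtain ⟨k, rfl | rfl⟩ := Nat.even_or_odd' n
    · rw [lifted_even]; exact hKF k X
    · rw [lifted_odd]; exact (hKF k X).app _
  · obtain ⟨k, rfl | rfl⟩ := Nat.even_or_odd' n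
    · rw [lifted_even, lifted_odd]
      refine ⟨rfl, rfl, fun X i => ?_⟩
      simp [liftT, liftF]
    · rw [show 2 * k + 1 + 1 = 2 * (k + 1) by ring, lifted_even, lifted_odd]
      refine ⟨hlp k, rfl, fun X i => ?_⟩
      have hb := (hT k).2.2 X i
      by_cases hX : X = lp d (w k) + dir d
      · subst hX
        rw [(hF k).2.1, if_pos ⟨rfl, rfl⟩]
        simp only [liftF, hlp, if_true, aseq, push]
        have hb' : |(w (k + 1)).y (lp d (w k) + dir d) i - step (!d) (w k) (lp d (w k) + dir d) i|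
            ≤ c := hb.trans (by split_ifs; exacts [le_rfl, hc])
        rw [abs_le] at hb' ⊢
        constructor <;> linarith [hb'.1, hb'.2]
      · rw [(hF k).1 X hX, if_neg (fun h => hX h.2)]
        simp only [liftF, hlp, hX, if_false]
        rwa [if_neg] at hb
        rintro ⟨h1, h2⟩
        apply hX
        rw [h2, lp, h1]
        have := add_dir_not (w k).p (!d)
        simpa using this.symm
  · by_contra hcon
    push Not at hcon
    have h0 : ∀ k, N ≤ k → ovf (liftT d (w k) (aseq d w k)) = 0 := by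
      intro k hk
      have := hcon (2 * k + 1) (by omega)
      rw [lifted_odd] at this
      have := ovf_le (liftT d (w k) (aseq d w k))
      omega
    have hmono : ∀ k l, N ≤ k → ((aseq d w k).2.2 : ℕ) ≤ ((aseq d w (k + l)).2.2 : ℕ) := by
      intro k l hk
      induction l with
      | zero => exact le_rfl
      | succ l ih =>
        have := (hF (k + l)).2.2
        rw [h0 _ (by omega)] at this
        have e : aseq d w (k + (l + 1)) = nexta d (w (k + l)) (aseq d w (k + l)) := rfl
        rw [e]; omega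
    have hbig : ∀ m, ∃ k, N ≤ k ∧ m ≤ ((aseq d w k).2.2 : ℕ) := by
      intro m
      induction m with
      | zero => exact ⟨N, le_rfl, Nat.zero_le _⟩
      | succ m ih =>
        obtain ⟨k, hk, hm⟩ := ih
        obtain ⟨n, hn, ho⟩ := hO k
        obtain ⟨l, rfl⟩ := Nat.exists_eq_add_of_le hn
        refine ⟨k + l + 1, by omega, ?_⟩
        have := (hF (k + l)).2.2
        rw [h0 _ (by omega), ho] at this
        have e : aseq d w (k + l + 1) = nexta d (w (k + l)) (aseq d w (k + l)) := rfl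
        have := hmono k l hk
        rw [e]; omega
    obtain ⟨k, -, hk⟩ := hbig 128
    have := (aseq d w k).2.2.isLt
    omega

theorem exists_good (j : ℕ) : ∀ d : Bool, ∃ z, Good d (1 / 8 * (1 / 4) ^ j) z := by
  induction j with
  | zero => exact fun d => ⟨base d, by simpa using good_base d⟩
  | succ j ih =>
    intro d
    obtain ⟨w, hw⟩ := ih (!d)
    refine ⟨lifted d w, ?_⟩
    have := good_lift hw (by positivity)
    convert this using 1
    ring

end Pool.Agent.MP_3afe9c_an

end MrgPart1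

-- ======== part 2: formerly Pool.Agent.MP_3afe9c_an.Bump
section MrgPart2

/-!
Smooth periodic building blocks.
-/

set_option autoImplicit false

open Set Real
open scoped ContDiff

namespace Pool.Agent.MP_3afe9c_an

lemma contDiff_floor {E : Type} [NormedAddCommGroup E] [NormedSpace ℝ E] {τ : E → ℝ}
    (hτ : Continuous τ) (H : ℤ → ℝ → E → ℝ)
    (hH : ∀ n : ℤ, ContDiff ℝ ∞ fun x => H n (τ x - n) x)
    (h0 : ∀ n s x, s ≤ 1 / 6 ∨ 5 / 6 ≤ s → H n s x = 0) :
    ContDiff ℝ ∞ fun x => H ⌊τ x⌋ (τ x - ⌊τ x⌋) x := by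
  refine contDiff_iff_contDiffAt.mpr fun x0 => ?_
  refine (hH ⌊τ x0⌋).contDiffAt.congr_of_eventuallyEq ?_
  have h1 := Int.floor_le (τ x0)
  have h2 := Int.lt_floor_add_one (τ x0)
  have : ∀ᶠ x in nhds x0, τ x ∈ Ioo ((⌊τ x0⌋ : ℝ) - 1 / 6) (⌊τ x0⌋ + 7 / 6) :=
    hτ.continuousAt.eventually (Ioo_mem_nhds (by linarith) (by linarith))
  filter_upwards [this] with x hx
  have h3 := Int.floor_le (τ x)
  have h4 := Int.lt_floor_add_one (τ x)
  rcases lt_trichotomy ⌊τ x⌋ ⌊τ x0⌋ with h | h | h
  · have h' : (⌊τ x⌋ : ℝ) + 1 ≤ ⌊τ x0⌋ := by exact_mod_cast h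
    rw [h0 _ _ _ (Or.inr (by linarith [hx.1])), h0 _ _ _ (Or.inl (by linarith))]
  · rw [h]
  · have h' : (⌊τ x0⌋ : ℝ) + 1 ≤ ⌊τ x⌋ := by exact_mod_cast h
    rw [h0 _ _ _ (Or.inl (by linarith [hx.2])), h0 _ _ _ (Or.inr (by linarith))]

/-- Cut-off equal to one on `[-1/4, 1/4]` and zero outside `(-1/3, 1/3)`. -/
noncomputable def cut (u : ℝ) : ℝ :=
  smoothTransition (4 - 12 * u) * smoothTransition (4 + 12 * u)

lemma cut_contDiff : ContDiff ℝ ∞ cut := by
  unfold cut
  exact (smoothTransition.contDiff.comp (by fun_prop)).mul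
    (smoothTransition.contDiff.comp (by fun_prop))

lemma cut_nonneg (u : ℝ) : 0 ≤ cut u :=
  mul_nonneg (smoothTransition.nonneg _) (smoothTransition.nonneg _)

/-- Periodisation of `cut * F`. -/
noncomputable def per (F : ℝ → ℝ) (x : ℝ) : ℝ :=
  cut (x - ⌊x + 1 / 2⌋) * F (x - ⌊x + 1 / 2⌋)

lemma per_contDiff {F : ℝ → ℝ} (hF : ContDiff ℝ ∞ F) : ContDiff ℝ ∞ (per F) := by
  have := contDiff_floor (τ := fun x : ℝ => x + 1 / 2) (by fun_prop)
    (fun _ s _ => cut (s - 1 / 2) * F (s - 1 / 2))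
    (fun n => (cut_contDiff.comp (by fun_prop)).mul (hF.comp (by fun_prop)))
    (fun n s x hs => by
      rcases hs with hs | hs
      · simp only [cut]; rw [smoothTransition.zero_of_nonpos (x := 4 + _) (by linarith)]; simp
      · simp only [cut]; rw [smoothTransition.zero_of_nonpos (x := 4 - _) (by linarith)]; simp)
  convert this using 2 with x
  simp only [per]; congr 2 <;> ring

lemma per_add_int (F : ℝ → ℝ) (x : ℝ) (k : ℤ) : per F (x + k) = per F x := by
  have : ⌊x + k + 1 / 2⌋ = ⌊x + 1 / 2⌋ + k := by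
    rw [show x + k + 1 / 2 = x + 1 / 2 + k by ring, Int.floor_add_intCast]
  simp only [per, this]
  congr 2 <;> push_cast <;> ring

lemma per_eq (F : ℝ → ℝ) {x : ℝ} (h : |x| ≤ 1 / 4) : per F x = F x := by
  have h' := abs_le.mp h
  have : ⌊x + 1 / 2⌋ = 0 := Int.floor_eq_zero_iff.mpr ⟨by linarith [h'.1], by linarith [h'.2]⟩
  simp only [per, this, cut, Int.cast_zero, sub_zero]
  rw [smoothTransition.one_of_one_le (by linarith [h'.2]),
    smoothTransition.one_of_one_le (by linarith [h'.1])]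
  simp

lemma per_nonneg {F : ℝ → ℝ} (hF : ∀ u, 0 ≤ F u) (x : ℝ) : 0 ≤ per F x :=
  mul_nonneg (cut_nonneg _) (hF _)

/-- Periodic function equal to the identity near zero. -/
noncomputable def sig : ℝ → ℝ := per id
/-- Periodic function reading the sign. -/
noncomputable def bet : ℝ → ℝ := per fun u => smoothTransition (64 * u + 1 / 2)
noncomputable def gap (u : ℝ) : ℝ := smoothTransition (10 - 512 * u) + smoothTransition (512 * u - 22)
/-- Periodic function detecting invalid registers. -/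
noncomputable def eta : ℝ → ℝ := per fun u => gap u * gap (-u)

lemma gap_nonneg (u : ℝ) : 0 ≤ gap u :=
  add_nonneg (smoothTransition.nonneg _) (smoothTransition.nonneg _)

lemma gap_contDiff : ContDiff ℝ ∞ gap :=
  (smoothTransition.contDiff.comp (by fun_prop)).add (smoothTransition.contDiff.comp (by fun_prop))

lemma sig_contDiff : ContDiff ℝ ∞ sig := per_contDiff contDiff_id
lemma bet_contDiff : ContDiff ℝ ∞ bet := per_contDiff (smoothTransition.contDiff.comp (by fun_prop))
lemma eta_contDiff : ContDiff ℝ ∞ eta :=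
  per_contDiff (gap_contDiff.mul (gap_contDiff.comp contDiff_neg))

lemma sig_eq {x : ℝ} (h : |x| ≤ 1 / 4) : sig x = x := per_eq _ h

lemma bet_eq {x : ℝ} (h : |x| ≤ 1 / 4) (h' : 1 / 128 ≤ |x|) :
    bet x = if 0 < x then 1 else 0 := by
  rw [bet, per_eq _ h]
  split_ifs with h0
  · rw [abs_of_pos h0] at h'; exact smoothTransition.one_of_one_le (by linarith)
  · rw [abs_of_nonpos (not_lt.mp h0)] at h'; exact smoothTransition.zero_of_nonpos (by linarith)

lemma eta_nonneg (x : ℝ) : 0 ≤ eta x :=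
  per_nonneg (fun _ => mul_nonneg (gap_nonneg _) (gap_nonneg _)) x

lemma gap_zero {u : ℝ} (h1 : 10 / 512 ≤ u) (h2 : u ≤ 22 / 512) : gap u = 0 := by
  rw [gap, smoothTransition.zero_of_nonpos (by linarith),
    smoothTransition.zero_of_nonpos (by linarith), add_zero]

lemma gap_one {u : ℝ} (h : u ≤ 9 / 512 ∨ 23 / 512 ≤ u) : 1 ≤ gap u := by
  rcases h with h | h
  · rw [gap, smoothTransition.one_of_one_le (by linarith)]
    linarith [smoothTransition.nonneg (512 * u - 22)]
  · rw [gap, smoothTransition.one_of_one_le (x := 512 * u - 22) (by linarith)]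
    linarith [smoothTransition.nonneg (10 - 512 * u)]

lemma eta_zero {x : ℝ} (h1 : 10 / 512 ≤ |x|) (h2 : |x| ≤ 22 / 512) : eta x = 0 := by
  rw [eta, per_eq _ (by linarith)]
  rcases le_total 0 x with h | h
  · rw [abs_of_nonneg h] at h1 h2; rw [gap_zero h1 h2, zero_mul]
  · rw [abs_of_nonpos h] at h1 h2; rw [gap_zero h1 h2, mul_zero]

lemma eta_one {x : ℝ} (h : |x| ≤ 1 / 4) (h' : |x| ≤ 9 / 512 ∨ 23 / 512 ≤ |x|) : 1 ≤ eta x := by
  rw [eta, per_eq _ h]
  refine one_le_mul_of_one_le_of_one_le (gap_one ?_) (gap_one ?_)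
  · rcases h' with h' | h'
    · exact Or.inl ((le_abs_self x).trans h')
    · rcases le_total 0 x with h0 | h0
      · rw [abs_of_nonneg h0] at h'; exact Or.inr h'
      · exact Or.inl (by linarith)
  · rcases h' with h' | h'
    · exact Or.inl ((neg_le_abs x).trans h')
    · rcases le_total 0 x with h0 | h0
      · exact Or.inl (by linarith)
      · rw [abs_of_nonpos h0] at h'; exact Or.inr h'

/-- Smooth step from zero to one on `[a/6, (a+1)/6]`. -/
noncomputable def Psi (a : ℝ) (s : ℝ) : ℝ := smoothTransition (6 * s - a)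
noncomputable def psi (a : ℝ) (s : ℝ) : ℝ := 6 * deriv smoothTransition (6 * s - a)

lemma Psi_hasDerivAt (a s : ℝ) : HasDerivAt (Psi a) (psi a s) s := by
  have h1 : HasDerivAt smoothTransition (deriv smoothTransition (6 * s - a)) (6 * s - a) :=
    ((smoothTransition.contDiff (n := 1)).differentiable (by simp) _).hasDerivAt
  have h2 : HasDerivAt (fun s : ℝ => 6 * s - a) 6 s := by
    simpa using ((hasDerivAt_id s).const_mul 6).sub_const a
  have := h1.comp s h2
  rw [psi, mul_comm]
  exact this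

lemma psi_contDiff (a : ℝ) : ContDiff ℝ ∞ (psi a) := by
  have : ContDiff ℝ ∞ (deriv smoothTransition) :=
    (contDiff_infty_iff_deriv.mp smoothTransition.contDiff).2
  exact contDiff_const.mul (this.comp (by fun_prop))

lemma Psi_zero {a s : ℝ} (h : 6 * s ≤ a) : Psi a s = 0 :=
  smoothTransition.zero_of_nonpos (by linarith)
lemma Psi_one {a s : ℝ} (h : a + 1 ≤ 6 * s) : Psi a s = 1 :=
  smoothTransition.one_of_one_le (by linarith)
lemma Psi_nonneg (a s : ℝ) : 0 ≤ Psi a s := smoothTransition.nonneg _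
lemma Psi_le_one (a s : ℝ) : Psi a s ≤ 1 := smoothTransition.le_one _

lemma psi_zero {a s : ℝ} (h : 6 * s ≤ a ∨ a + 1 ≤ 6 * s) : psi a s = 0 := by
  rw [psi]
  rcases h with h | h
  · rw [IsLocalMin.deriv_eq_zero, mul_zero]
    refine Filter.Eventually.of_forall fun u => ?_
    rw [smoothTransition.zero_of_nonpos (by linarith)]; exact smoothTransition.nonneg _
  · rw [IsLocalMax.deriv_eq_zero, mul_zero]
    refine Filter.Eventually.of_forall fun u => ?_
    rw [smoothTransition.one_of_one_le (x := 6 * s - a) (by linarith)]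
    exact smoothTransition.le_one _

/-- Bump supported in `[1/6, 1/3]` and equal to one on `[5/24, 7/24]`. -/
noncomputable def win (s : ℝ) : ℝ := smoothTransition (24 * s - 4) * smoothTransition (8 - 24 * s)

lemma win_contDiff : ContDiff ℝ ∞ win :=
  (smoothTransition.contDiff.comp (by fun_prop)).mul (smoothTransition.contDiff.comp (by fun_prop))

lemma win_nonneg (s : ℝ) : 0 ≤ win s :=
  mul_nonneg (smoothTransition.nonneg _) (smoothTransition.nonneg _)

lemma win_zero {s : ℝ} (h : s ≤ 1 / 6 ∨ 1 / 3 ≤ s) : win s = 0 := by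
  rw [win]
  rcases h with h | h
  · rw [smoothTransition.zero_of_nonpos (x := 24 * s - 4) (by linarith), zero_mul]
  · rw [smoothTransition.zero_of_nonpos (x := 8 - 24 * s) (by linarith), mul_zero]

lemma win_one {s : ℝ} (h1 : 5 / 24 ≤ s) (h2 : s ≤ 7 / 24) : win s = 1 := by
  rw [win, smoothTransition.one_of_one_le (by linarith),
    smoothTransition.one_of_one_le (by linarith), mul_one]

/-- Multilinear interpolation of a function of bits. -/
noncomputable def interp {κ : Type} [Fintype κ] [DecidableEq κ] (val : (κ → Bool) → ℝ)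
    (w : κ → ℝ) : ℝ :=
  ∑ σ : κ → Bool, val σ * ∏ k, if σ k then w k else 1 - w k

lemma interp_eq {κ : Type} [Fintype κ] [DecidableEq κ] (val : (κ → Bool) → ℝ) {w : κ → ℝ}
    {σ0 : κ → Bool} (h : ∀ k, w k = if σ0 k then 1 else 0) : interp val w = val σ0 := by
  rw [interp, Finset.sum_eq_single σ0]
  · rw [Finset.prod_eq_one, mul_one]
    intro k _
    rw [h k]; cases σ0 k <;> simp
  · intro σ _ hσ
    obtain ⟨k, hk⟩ := Function.ne_iff.mp hσ
    rw [Finset.prod_eq_zero (Finset.mem_univ k), mul_zero]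
    rw [h k]
    revert hk
    cases σ0 k <;> cases σ k <;> simp
  · simp

lemma interp_contDiff {κ : Type} [Fintype κ] [DecidableEq κ] (val : (κ → Bool) → ℝ)
    {E : Type} [NormedAddCommGroup E] [NormedSpace ℝ E] {w : E → κ → ℝ}
    (hw : ∀ k, ContDiff ℝ ∞ fun x => w x k) : ContDiff ℝ ∞ fun x => interp val (w x) := by
  unfold interp
  refine ContDiff.sum fun σ _ => contDiff_const.mul (contDiff_prod fun k _ => ?_)
  cases σ k
  · simpa using contDiff_const.sub (hw k)
  · simpa using hw k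

end Pool.Agent.MP_3afe9c_an

end MrgPart2

-- ======== part 3: formerly Pool.Agent.MP_3afe9c_an.Flow
section MrgPart3

/-!
Flows of periodic smooth vector fields, Gronwall estimates and unit-time chains.
-/

set_option autoImplicit false
set_option linter.unusedSectionVars false

open MeasureTheory Set
open scoped NNReal ContDiff

namespace Pool.Agent.MP_3afe9c_an

variable {ι : Type} [Fintype ι]

lemma IsLat.zero : IsLat (0 : EuclideanSpace ℝ ι) := fun _ => ⟨0, by simp⟩

lemma IsLat.add {v w : EuclideanSpace ℝ ι} (hv : IsLat v) (hw : IsLat w) : IsLat (v + w) := by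
  intro i
  obtain ⟨a, ha⟩ := hv i
  obtain ⟨b, hb⟩ := hw i
  exact ⟨a + b, by simp [ha, hb]⟩

lemma IsLat.neg {v : EuclideanSpace ℝ ι} (hv : IsLat v) : IsLat (-v) := by
  intro i
  obtain ⟨a, ha⟩ := hv i
  exact ⟨-a, by simp [ha]⟩

lemma norm_le_card {x : EuclideanSpace ℝ ι} {c : ℝ} (hc : 0 ≤ c) (h : ∀ i, |x i| ≤ c) :
    ‖x‖ ≤ (Fintype.card ι + 1) * c := by
  rw [EuclideanSpace.norm_eq, Real.sqrt_le_left (by positivity)]
  calc ∑ i, ‖x i‖ ^ 2 ≤ ∑ _i : ι, c ^ 2 := by
        refine Finset.sum_le_sum fun i _ => ?_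
        have := h i
        rw [Real.norm_eq_abs]; gcongr
    _ = Fintype.card ι * c ^ 2 := by simp
    _ ≤ _ := by
        have : (0 : ℝ) ≤ Fintype.card ι := by positivity
        nlinarith [sq_nonneg c, mul_nonneg (mul_nonneg this this) (sq_nonneg c),
          mul_nonneg this (sq_nonneg c)]

lemma bounded_of_periodic {F : Type} [NormedAddCommGroup F] {g : EuclideanSpace ℝ ι → F}
    (hg : Continuous g) (hp : ∀ x v, IsLat v → g (x + v) = g x) : ∃ M : ℝ, ∀ x, ‖g x‖ ≤ M := by
  obtain ⟨M, hM⟩ := (isCompact_closedBall (0 : EuclideanSpace ℝ ι)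
    ((Fintype.card ι + 1) * 1)).exists_bound_of_continuousOn hg.continuousOn
  refine ⟨M, fun x => ?_⟩
  let v : EuclideanSpace ℝ ι := WithLp.toLp 2 fun i => (⌊x i⌋ : ℝ)
  have hv : IsLat v := fun i => ⟨⌊x i⌋, rfl⟩
  have : g x = g (x - v) := by rw [← hp (x - v) v hv]; simp
  rw [this]
  refine hM _ (mem_closedBall_zero_iff.mpr (norm_le_card zero_le_one fun i => ?_))
  have h1 := Int.floor_le (x i)
  have h2 := Int.lt_floor_add_one (x i)
  simp only [v, PiLp.sub_apply]
  rw [abs_le]; constructor <;> linarith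

lemma lipschitz_of_periodic {f : EuclideanSpace ℝ ι → EuclideanSpace ℝ ι} (hf : ContDiff ℝ ∞ f)
    (hp : ∀ x v, IsLat v → f (x + v) = f x) : ∃ L : ℝ≥0, LipschitzWith L f := by
  have hd : Differentiable ℝ f := hf.differentiable (by simp)
  have hc : Continuous (fderiv ℝ f) := hf.continuous_fderiv (by simp)
  obtain ⟨M, hM⟩ := bounded_of_periodic hc (fun x v hv => by
    have : f = fun y => f (y + v) := funext fun y => (hp y v hv).symm
    conv_rhs => rw [this]
    rw [fderiv_comp_add_right])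
  refine ⟨⟨max M 0, le_max_right _ _⟩, lipschitzWith_of_nnnorm_fderiv_le hd fun x => ?_⟩
  exact_mod_cast (hM x).trans (le_max_left _ _)

theorem exists_flow {f : EuclideanSpace ℝ ι → EuclideanSpace ℝ ι} {L : ℝ≥0}
    (hL : LipschitzWith L f) {M : ℝ} (hM : ∀ x, ‖f x‖ ≤ M) : ∃ φ, IsFlow f φ := by
  have hM0 : 0 ≤ M := (norm_nonneg _).trans (hM 0)
  have loc : ∀ (x : EuclideanSpace ℝ ι) (n : ℕ), ∃ α : ℝ → EuclideanSpace ℝ ι, α 0 = x ∧
      ∀ t ∈ Ioo (-(n + 1 : ℝ)) (n + 1), HasDerivAt α (f (α t)) t := by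
    intro x n
    have h0 : (0 : ℝ) ∈ Icc (-(n + 1 : ℝ)) (n + 1) := ⟨by linarith [n.cast_nonneg (α := ℝ)],
      by positivity⟩
    have := IsPicardLindelof.of_time_independent (f := f) (t₀ := ⟨0, h0⟩) (x₀ := x)
      (a := ⟨M * (n + 1), by positivity⟩) (r := 0) (L := ⟨M, hM0⟩) (K := L)
      (fun y _ => hM y) hL.lipschitzOnWith (by simp; exact le_rfl)
    obtain ⟨α, h1, h2⟩ := this.exists_eq_forall_mem_Icc_hasDerivWithinAt₀
    exact ⟨α, h1, fun t ht => (h2 t (Ioo_subset_Icc_self ht)).hasDerivAt (Icc_mem_nhds ht.1 ht.2)⟩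
  choose α h0 hα using loc
  have agree : ∀ x (n m : ℕ), n ≤ m → EqOn (α x n) (α x m) (Ioo (-(n + 1 : ℝ)) (n + 1)) := by
    intro x n m hnm
    have hnm' : (n : ℝ) ≤ m := by exact_mod_cast hnm
    refine ODE_solution_unique_of_mem_Ioo (v := fun _ => f) (s := fun _ => univ) (t₀ := 0) (K := L)
      (fun _ _ => hL.lipschitzOnWith) ⟨by linarith [n.cast_nonneg (α := ℝ)], by positivity⟩
      (fun t ht => ⟨hα x n t ht, trivial⟩)
      (fun t ht => ⟨hα x m t ⟨by linarith [ht.1], by linarith [ht.2]⟩, trivial⟩) ?_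
    rw [h0, h0]
  have mem : ∀ t : ℝ, t ∈ Ioo (-((⌈|t|⌉₊ : ℕ) + 1 : ℝ)) ((⌈|t|⌉₊ : ℕ) + 1) := by
    intro t
    have := Nat.le_ceil |t|
    constructor <;> linarith [le_abs_self t, neg_abs_le t]
  refine ⟨fun t x => α x ⌈|t|⌉₊ t, fun x => ⟨h0 _ _, fun t => ?_⟩⟩
  have key : ∀ s ∈ Ioo (-((⌈|t|⌉₊ : ℕ) + 1 : ℝ)) ((⌈|t|⌉₊ : ℕ) + 1),
      α x ⌈|s|⌉₊ s = α x ⌈|t|⌉₊ s := by
    intro s hs
    rcases le_total ⌈|s|⌉₊ ⌈|t|⌉₊ with h | h
    · exact agree x _ _ h (mem s)
    · exact (agree x _ _ h hs).symm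
  refine (hα x _ t (mem t)).congr_of_eventuallyEq ?_
  filter_upwards [Ioo_mem_nhds (mem t).1 (mem t).2] with s hs using key s hs

section
variable {f : EuclideanSpace ℝ ι → EuclideanSpace ℝ ι}
  {φ : ℝ → EuclideanSpace ℝ ι → EuclideanSpace ℝ ι} {L : ℝ≥0}

lemma IsFlow.continuous (h : IsFlow f φ) (x : EuclideanSpace ℝ ι) : Continuous fun s => φ s x :=
  continuous_iff_continuousAt.mpr fun t => ((h x).2 t).continuousAt

lemma IsFlow.eq_of (h : IsFlow f φ) (hL : LipschitzWith L f) {c : ℝ → EuclideanSpace ℝ ι} {T : ℝ}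
    (hT : 0 ≤ T) (hc : ContinuousOn c (Icc 0 T))
    (hd : ∀ t ∈ Ico 0 T, HasDerivAt c (f (c t)) t) : φ T (c 0) = c T :=
  ODE_solution_unique (v := fun _ => f) (fun _ => hL) (h.continuous _).continuousOn
    (fun t _ => ((h _).2 t).hasDerivWithinAt) hc (fun t ht => (hd t ht).hasDerivWithinAt)
    (h _).1 ⟨hT, le_rfl⟩

lemma IsFlow.add (h : IsFlow f φ) (hL : LipschitzWith L f) {s : ℝ} (hs : 0 ≤ s) (t : ℝ)
    (x : EuclideanSpace ℝ ι) : φ s (φ t x) = φ (s + t) x := by
  have := h.eq_of hL (c := fun u => φ (u + t) x) hs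
    ((h.continuous x).comp (continuous_add_const t)).continuousOn
    (fun u _ => ((h x).2 (u + t)).comp_add_const u t)
  simpa using this

lemma IsFlow.lat (h : IsFlow f φ) (hL : LipschitzWith L f) (hp : ∀ x v, IsLat v → f (x + v) = f x)
    {s : ℝ} (hs : 0 ≤ s) (x : EuclideanSpace ℝ ι) {v : EuclideanSpace ℝ ι} (hv : IsLat v) :
    φ s (x + v) = φ s x + v := by
  have := h.eq_of hL (c := fun u => φ u x + v) hs
    ((h.continuous x).add continuous_const).continuousOn
    (fun u _ => by rw [hp _ _ hv]; exact ((h x).2 u).add_const v)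
  simpa [(h x).1] using this

lemma IsFlow.lip (h : IsFlow f φ) (hL : LipschitzWith L f) {s : ℝ} (hs : 0 ≤ s)
    (x y : EuclideanSpace ℝ ι) : ‖φ s x - φ s y‖ ≤ ‖x - y‖ * Real.exp (L * s) := by
  have := dist_le_of_trajectories_ODE (v := fun _ => f) (a := 0) (b := s) (δ := ‖x - y‖)
    (fun _ => hL) (h.continuous x).continuousOn (fun t _ => ((h _).2 t).hasDerivWithinAt)
    (h.continuous y).continuousOn (fun t _ => ((h _).2 t).hasDerivWithinAt)
    (by rw [(h x).1, (h y).1, dist_eq_norm]) s ⟨hs, le_rfl⟩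
  simpa [dist_eq_norm] using this

lemma IsFlow.time (h : IsFlow f φ) {M : ℝ} (hM : ∀ x, ‖f x‖ ≤ M) (s t : ℝ)
    (x : EuclideanSpace ℝ ι) : ‖φ s x - φ t x‖ ≤ M * |s - t| := by
  have := Convex.norm_image_sub_le_of_norm_hasDerivWithin_le (s := univ) (C := M)
    (f := fun s => φ s x) (f' := fun s => f (φ s x))
    (fun u _ => ((h x).2 u).hasDerivWithinAt) (fun u _ => hM _) convex_univ (mem_univ t)
    (mem_univ s)
  simpa [Real.norm_eq_abs] using this

/-- Closeness on the torus. -/
def Near (ε : ℝ) (x y : EuclideanSpace ℝ ι) : Prop := ∃ v, IsLat v ∧ ‖x - y - v‖ ≤ ε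

lemma Near.tdist_le {ε : ℝ} {x y : EuclideanSpace ℝ ι} (h : Near ε x y) : tdist x y ≤ ε := by
  obtain ⟨v, hv, h⟩ := h
  have hb : BddBelow (range fun v : {v : EuclideanSpace ℝ ι // IsLat v} => ‖x - y - v.1‖) :=
    ⟨0, by rintro _ ⟨w, rfl⟩; exact norm_nonneg _⟩
  exact (ciInf_le hb ⟨v, hv⟩).trans h

lemma Near.trans {ε δ : ℝ} {x y z : EuclideanSpace ℝ ι} (h : Near ε x y) (h' : Near δ y z) :
    Near (ε + δ) x z := by
  obtain ⟨v, hv, h⟩ := h
  obtain ⟨w, hw, h'⟩ := h'
  refine ⟨v + w, hv.add hw, ?_⟩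
  calc _ = ‖(x - y - v) + (y - z - w)‖ := by congr 1; abel
    _ ≤ _ := (norm_add_le _ _).trans (add_le_add h h')

lemma Near.mono {ε δ : ℝ} {x y : EuclideanSpace ℝ ι} (h : Near ε x y) (hle : ε ≤ δ) :
    Near δ x y := by
  obtain ⟨v, hv, h⟩ := h
  exact ⟨v, hv, h.trans hle⟩

lemma Near.of_norm {ε : ℝ} {x y : EuclideanSpace ℝ ι} (h : ‖x - y‖ ≤ ε) : Near ε x y :=
  ⟨0, IsLat.zero, by simpa using h⟩

lemma IsFlow.near (h : IsFlow f φ) (hL : LipschitzWith L f)
    (hp : ∀ x v, IsLat v → f (x + v) = f x) {s : ℝ} (hs : 0 ≤ s) {ε : ℝ}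
    {x y : EuclideanSpace ℝ ι} (hn : Near ε x y) :
    Near (ε * Real.exp (L * s)) (φ s x) (φ s y) := by
  obtain ⟨v, hv, hn⟩ := hn
  refine ⟨v, hv, ?_⟩
  have := h.lip hL hs x (y + v)
  rw [h.lat hL hp hs y hv, ← sub_sub, ← sub_sub] at this
  exact this.trans (by gcongr)

/-- Closed chains with unit times give chain recurrence. -/
theorem chainRec_of_unit (h : IsFlow f φ) (hL : LipschitzWith L f)
    (hp : ∀ x v, IsLat v → f (x + v) = f x) {x : EuclideanSpace ℝ ι}
    (hx : ∀ ε : ℝ, 0 < ε → ∃ (k : ℕ) (p : ℕ → EuclideanSpace ℝ ι), 1 ≤ k ∧ p 0 = x ∧ p k = x ∧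
      ∀ i, i < k → Near ε (φ 1 (p i)) (p (i + 1))) : ChainRec φ x := by
  intro ε hε T hT
  set m := ⌈T⌉₊ with hm
  set C := Real.exp (L * 1) + 1 with hC
  have hC1 : 1 ≤ C := by have := Real.exp_pos (L * 1); linarith
  obtain ⟨k, p, hk, hp0, hpk, hpn⟩ := hx (ε / 2 / C ^ m) (by positivity)
  set δ := ε / 2 / C ^ m with hδ
  have hδ0 : 0 < δ := by positivity
  have hq : ∀ i, Near δ (φ 1 (p (i % k))) (p ((i + 1) % k)) := by
    intro i
    have hlt := Nat.mod_lt i hk
    have h2 : p ((i + 1) % k) = p (i % k + 1) := by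
      rw [← Nat.mod_add_mod]
      rcases Nat.lt_or_ge (i % k + 1) k with h | h
      · rw [Nat.mod_eq_of_lt h]
      · have : i % k + 1 = k := by omega
        rw [this, Nat.mod_self, hpk, hp0]
    rw [h2]; exact hpn _ hlt
  have hblock : ∀ (j i : ℕ), Near (δ * C ^ j) (φ j (p (i % k))) (p ((i + j) % k)) := by
    intro j
    induction j with
    | zero => intro i; exact Near.of_norm (by simp [(h _).1, hδ0.le])
    | succ j ih =>
      intro i
      have h1 := h.near hL hp zero_le_one (ih i)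
      rw [h.add hL zero_le_one] at h1
      have h2 := h1.trans (hq (i + j))
      rw [show (1 : ℝ) + j = ((j + 1 : ℕ) : ℝ) by push_cast; ring] at h2
      refine h2.mono ?_
      have : 1 ≤ C ^ j := one_le_pow₀ hC1
      rw [pow_succ, hC]
      nlinarith
  refine ⟨k, fun i => p ((i * m) % k), fun _ => m, hk, by simpa using hp0,
    by simpa using hp0, fun i _ => ⟨Nat.le_ceil T, ?_⟩⟩
  have := (hblock m (i * m)).tdist_le
  rw [show i * m + m = (i + 1) * m by ring] at this
  refine this.trans_lt ?_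
  rw [hδ, div_mul_cancel₀ _ (by positivity)]
  linarith

end

/-- Integral form of the Gronwall inequality. -/
lemma gronwall_integral {u : ℝ → ℝ} (hu : Continuous u) {a b I L : ℝ} (hL : 0 ≤ L) (_hI : 0 ≤ I)
    (hab : a ≤ b) (h : ∀ t ∈ Icc a b, u t ≤ I + ∫ s in a..t, L * u s) :
    u b ≤ I * Real.exp (L * (b - a)) := by
  set w : ℝ → ℝ := fun t => I + ∫ s in a..t, L * u s with hw
  have hc : Continuous fun s => L * u s := continuous_const.mul hu
  have hd : ∀ t, HasDerivAt w (L * u t) t := fun t =>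
    (hc.integral_hasStrictDerivAt a t).hasDerivAt.const_add I
  have := le_gronwallBound_of_liminf_deriv_right_le (f := w) (f' := fun t => L * u t) (δ := I)
    (K := L) (ε := 0) (a := a) (b := b)
    (continuous_iff_continuousAt.mpr fun t => (hd t).continuousAt).continuousOn
    (fun x _ r hr => (hd x).hasDerivWithinAt.liminf_right_slope_le hr) (by simp [hw])
    (fun x hx => by
      have := h x (Ico_subset_Icc_self hx)
      simp only [add_zero]; gcongr) b ⟨hab, le_rfl⟩
  rw [gronwallBound_ε0] at this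
  exact (h b ⟨hab, le_rfl⟩).trans this

end Pool.Agent.MP_3afe9c_an

end MrgPart3

-- ======== part 4: formerly Pool.Agent.MP_3afe9c_an.Curve
section MrgPart4

/-!
Absolutely continuous curves of finite action as controlled curves.
-/

set_option autoImplicit false
set_option linter.unusedSectionVars false

open MeasureTheory Set
open scoped NNReal ContDiff

namespace Pool.Agent.MP_3afe9c_an

variable {ι : Type} [Fintype ι]

/-- A curve on `[0, T]` with square integrable control `e`. -/
structure Cv (f : EuclideanSpace ℝ ι → EuclideanSpace ℝ ι) (T : ℝ) where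
  γ : ℝ → EuclideanSpace ℝ ι
  e : ℝ → EuclideanSpace ℝ ι
  cont : Continuous γ
  ei : Integrable e
  e2 : Integrable fun t => ‖e t‖ ^ 2
  chain : ∀ (i : ι) (g g' : ℝ → ℝ) (C : ℝ≥0), (∀ x, HasDerivAt g (g' x) x) → LipschitzWith C g →
    ∀ a ∈ Icc 0 T, ∀ b ∈ Icc 0 T,
      g (γ b i) - g (γ a i) = ∫ t in a..b, g' (γ t i) * (f (γ t) i + e t i)

lemma ac_comp {X Z : Type} [PseudoMetricSpace X] [PseudoMetricSpace Z] {γ : ℝ → X} {a b : ℝ}
    (h : AbsolutelyContinuousOnInterval γ a b) {g : X → Z} {C : ℝ≥0} (hg : LipschitzWith C g) :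
    AbsolutelyContinuousOnInterval (fun t => g (γ t)) a b := by
  unfold AbsolutelyContinuousOnInterval at h ⊢
  have h2 := h.const_mul (C : ℝ)
  rw [mul_zero] at h2
  refine squeeze_zero (fun E => Finset.sum_nonneg fun _ _ => dist_nonneg) (fun E => ?_) h2
  rw [Finset.mul_sum]
  exact Finset.sum_le_sum fun i _ => hg.dist_le_mul _ _

lemma coord_lip (i : ι) : LipschitzWith 1 fun x : EuclideanSpace ℝ ι => x i :=
  LipschitzWith.of_dist_le_mul fun x y => by
    simpa [dist_eq_norm] using PiLp.norm_apply_le (x - y) i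

theorem exists_cv {f : EuclideanSpace ℝ ι → EuclideanSpace ℝ ι} (hf : Continuous f) {T : ℝ}
    (hT : 0 ≤ T) {γ : ℝ → EuclideanSpace ℝ ι} (hγ : AbsolutelyContinuousOnInterval γ 0 T)
    {c : ℝ} (hc : 0 ≤ c) (ha : action f γ T < ENNReal.ofReal c) :
    ∃ Γ : Cv f T, Γ.γ 0 = γ 0 ∧ Γ.γ T = γ T ∧ ∫ t, ‖Γ.e t‖ ^ 2 ≤ 2 * c := by
  have hu : uIcc 0 T = Icc 0 T := uIcc_of_le hT
  have hγc : ContinuousOn γ (Icc 0 T) := hu ▸ hγ.continuousOn
  have hci : ∀ i, AbsolutelyContinuousOnInterval (fun t => γ t i) 0 T :=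
    fun i => ac_comp hγ (coord_lip i)
  have hdiff : ∀ᵐ t, t ∈ Icc 0 T → DifferentiableAt ℝ γ t := by
    have := ae_all_iff.mpr fun i => (hci i).ae_differentiableAt
    filter_upwards [this] with t ht hm
    exact differentiableAt_euclidean.mpr fun i => ht i (hu ▸ hm)
  have hcoord : ∀ t, DifferentiableAt ℝ γ t → ∀ i, HasDerivAt (fun t => γ t i) (deriv γ t i) t :=
    fun t ht i => (EuclideanSpace.proj (𝕜 := ℝ) i).hasFDerivAt.comp_hasDerivAt t ht.hasDerivAt
  have hdi : IntegrableOn (deriv γ) (Icc 0 T) := by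
    refine (integrable_piLp_iff).mpr fun i => ?_
    have h1 := (hci i).intervalIntegrable_deriv
    rw [intervalIntegrable_iff_integrableOn_Icc_of_le hT] at h1
    refine Integrable.congr h1 ?_
    filter_upwards [ae_restrict_of_ae hdiff, ae_restrict_mem measurableSet_Icc] with t ht hm
    exact (hcoord t (ht hm) i).deriv
  have hfi : IntegrableOn (fun t => f (γ t)) (Icc 0 T) :=
    (hf.comp_continuousOn hγc).integrableOn_Icc
  have hei : IntegrableOn (fun t => deriv γ t - f (γ t)) (Icc 0 T) := hdi.sub hfi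
  have hmeas : AEStronglyMeasurable (fun t => ‖deriv γ t - f (γ t)‖ ^ 2 / 2)
      (volume.restrict (Icc 0 T)) :=
    ((hei.aestronglyMeasurable.norm.pow 2).aemeasurable.div_const 2).aestronglyMeasurable
  have hnn : 0 ≤ᵐ[volume.restrict (Icc 0 T)] fun t => ‖deriv γ t - f (γ t)‖ ^ 2 / 2 :=
    Filter.Eventually.of_forall fun t => by positivity
  have he2 : IntegrableOn (fun t => ‖deriv γ t - f (γ t)‖ ^ 2 / 2) (Icc 0 T) := by
    refine (lintegral_ofReal_ne_top_iff_integrable hmeas hnn).mp ?_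
    exact (ha.trans ENNReal.ofReal_lt_top).ne
  have hint : ∫ t in Icc 0 T, ‖deriv γ t - f (γ t)‖ ^ 2 / 2 ≤ c := by
    rw [← ENNReal.ofReal_le_ofReal_iff hc, ofReal_integral_eq_lintegral_ofReal he2 hnn]
    exact ha.le
  have hind : (fun t => ‖indicator (Icc 0 T) (fun t => deriv γ t - f (γ t)) t‖ ^ 2) =
      indicator (Icc 0 T) fun t => 2 * (‖deriv γ t - f (γ t)‖ ^ 2 / 2) := by
    funext t
    by_cases ht : t ∈ Icc 0 T
    · simp only [indicator_of_mem ht]; ring
    · simp [indicator_of_notMem ht]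
  have hcl : ∀ t ∈ Icc 0 T, max 0 (min t T) = t := fun t ht => by
    rw [min_eq_left ht.2, max_eq_right ht.1]
  refine ⟨⟨fun t => γ (max 0 (min t T)), indicator (Icc 0 T) fun t => deriv γ t - f (γ t), ?_,
    (integrable_indicator_iff measurableSet_Icc).mpr hei, ?_, ?_⟩, ?_, ?_, ?_⟩
  · exact hγc.comp_continuous (by fun_prop)
      fun t => ⟨le_max_left _ _, max_le hT (min_le_right _ _)⟩
  · rw [hind]
    exact (integrable_indicator_iff measurableSet_Icc).mpr (he2.const_mul 2)
  · intro i g g' C hg hC a ha b hb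
    have hsub : uIcc a b ⊆ uIcc 0 T := by rw [hu]; exact uIcc_subset_Icc ha hb
    have h1 := ((ac_comp (hci i) hC).mono hsub).integral_deriv_eq_sub
    rw [hcl a ha, hcl b hb, ← h1]
    refine intervalIntegral.integral_congr_ae ?_
    filter_upwards [hdiff] with t ht hm
    have hm' : t ∈ Icc 0 T := hu ▸ hsub (uIoc_subset_uIcc hm)
    rw [hcl t hm', indicator_of_mem hm']
    have := (hg (γ t i)).comp t (hcoord t (ht hm') i)
    refine (HasDerivAt.deriv this).trans ?_
    simp
  · simp only [hcl 0 ⟨le_rfl, hT⟩]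
  · simp only [hcl T ⟨hT, le_rfl⟩]
  · simp only
    rw [hind, integral_indicator measurableSet_Icc, integral_const_mul]
    linarith

namespace Cv
variable {f : EuclideanSpace ℝ ι → EuclideanSpace ℝ ι} {T : ℝ} (Γ : Cv f T)

/-- Length of the control. -/
noncomputable def I (a b : ℝ) : ℝ := ∫ t in a..b, ‖Γ.e t‖
/-- Energy of the control. -/
noncomputable def S (a b : ℝ) : ℝ := ∫ t in a..b, ‖Γ.e t‖ ^ 2

lemma I_nonneg {a b : ℝ} (h : a ≤ b) : 0 ≤ Γ.I a b :=
  intervalIntegral.integral_nonneg h fun _ _ => norm_nonneg _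

lemma S_nonneg {a b : ℝ} (h : a ≤ b) : 0 ≤ Γ.S a b :=
  intervalIntegral.integral_nonneg h fun _ _ => sq_nonneg _

lemma I_mono {a b c d : ℝ} (h1 : c ≤ a) (h : a ≤ b) (h2 : b ≤ d) : Γ.I a b ≤ Γ.I c d :=
  intervalIntegral.integral_mono_interval h1 h h2
    (Filter.Eventually.of_forall fun _ => norm_nonneg _) Γ.ei.norm.intervalIntegrable

lemma S_le {a b : ℝ} (h : a ≤ b) : Γ.S a b ≤ ∫ t, ‖Γ.e t‖ ^ 2 := by
  rw [S, intervalIntegral.integral_of_le h]
  exact setIntegral_le_integral Γ.e2 (Filter.Eventually.of_forall fun _ => sq_nonneg _)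

lemma S_add (a b c : ℝ) : Γ.S a b + Γ.S b c = Γ.S a c :=
  intervalIntegral.integral_add_adjacent_intervals Γ.e2.intervalIntegrable Γ.e2.intervalIntegrable

lemma I_le {a b : ℝ} (h : a ≤ b) (m : ℝ) : 2 * m * Γ.I a b ≤ Γ.S a b + m ^ 2 * (b - a) := by
  have h1 : Γ.S a b + m ^ 2 * (b - a) = ∫ t in a..b, (‖Γ.e t‖ ^ 2 + m ^ 2) := by
    rw [intervalIntegral.integral_add Γ.e2.intervalIntegrable intervalIntegrable_const]
    simp [S, mul_comm]
  rw [h1, I, ← intervalIntegral.integral_const_mul]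
  refine intervalIntegral.integral_mono_on h (Γ.ei.norm.const_mul _).intervalIntegrable
    (Γ.e2.intervalIntegrable.add intervalIntegrable_const) fun t _ => ?_
  nlinarith [sq_nonneg (‖Γ.e t‖ - m)]

lemma I_sq_le {a b : ℝ} (h : a ≤ b) (h2 : b - a ≤ 2) : Γ.I a b ^ 2 ≤ 2 * Γ.S a b := by
  have := Γ.I_le h (Γ.I a b / 2)
  nlinarith [sq_nonneg (Γ.I a b)]

lemma ecoord (i : ι) : Integrable fun t => Γ.e t i := Γ.ei.eval_piLp i

lemma abs_int_le (i : ι) {a b : ℝ} (h : a ≤ b) : |∫ t in a..b, Γ.e t i| ≤ Γ.I a b := by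
  rw [← Real.norm_eq_abs]
  exact intervalIntegral.norm_integral_le_of_norm_le h
    (Filter.Eventually.of_forall fun t _ => PiLp.norm_apply_le _ i) Γ.ei.norm.intervalIntegrable

lemma coord (hf : Continuous f) (i : ι) {a b : ℝ} (ha : a ∈ Icc 0 T) (hb : b ∈ Icc 0 T) :
    Γ.γ b i - Γ.γ a i = (∫ t in a..b, f (Γ.γ t) i) + ∫ t in a..b, Γ.e t i := by
  have := Γ.chain i id (fun _ => 1) 1 hasDerivAt_id LipschitzWith.id a ha b hb
  simp only [id, one_mul] at this
  rw [this, intervalIntegral.integral_add _ (Γ.ecoord i).intervalIntegrable]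
  have hc := Γ.cont
  exact Continuous.intervalIntegrable (by fun_prop) _ _

/-- Shadowing by the flow of a projected field. -/
lemma shadow (hf : Continuous f) {g : EuclideanSpace ℝ ι → EuclideanSpace ℝ ι} {L : ℝ≥0}
    (hL : LipschitzWith L g) {φ : ℝ → EuclideanSpace ℝ ι → EuclideanSpace ℝ ι} (hφ : IsFlow g φ)
    (P : EuclideanSpace ℝ ι →L[ℝ] EuclideanSpace ℝ ι) (hP : ∀ x, ‖P x‖ ≤ ‖x‖)
    (hg : ∀ x, g (P x) = P (f x)) {a b : ℝ} (ha : a ∈ Icc 0 T) (hb : b ∈ Icc 0 T) (hab : a ≤ b) :
    ‖P (Γ.γ b) - φ (b - a) (P (Γ.γ a))‖ ≤ Γ.I a b * Real.exp (L * (b - a)) := by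
  have hc := Γ.cont
  have hφc := hφ.continuous (P (Γ.γ a))
  have hgc := hL.continuous
  have hφc' : Continuous fun t => φ (t - a) (P (Γ.γ a)) := hφc.comp (continuous_sub_right a)
  refine gronwall_integral (u := fun t => ‖P (Γ.γ t) - φ (t - a) (P (Γ.γ a))‖) (by fun_prop)
    L.2 (Γ.I_nonneg hab) hab fun t ht => ?_
  have ht' : t ∈ Icc 0 T := ⟨ha.1.trans ht.1, ht.2.trans hb.2⟩
  have hfi : IntervalIntegrable (fun s => f (Γ.γ s)) volume a t :=
    Continuous.intervalIntegrable (by fun_prop) _ _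
  have h1 : Γ.γ t - Γ.γ a = (∫ s in a..t, f (Γ.γ s)) + ∫ s in a..t, Γ.e s := by
    ext i
    have e1 := (EuclideanSpace.proj (𝕜 := ℝ) i).intervalIntegral_comp_comm hfi
    have e2 := (EuclideanSpace.proj (𝕜 := ℝ) i).intervalIntegral_comp_comm
      (Γ.ei.intervalIntegrable (a := a) (b := t))
    simp only [EuclideanSpace.coe_proj] at e1 e2
    simp only [PiLp.sub_apply, PiLp.add_apply, Γ.coord hf i ha ht', e1, e2]
  have h2 : P (Γ.γ t) - P (Γ.γ a) = (∫ s in a..t, g (P (Γ.γ s))) + P (∫ s in a..t, Γ.e s) := by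
    rw [← map_sub, h1, map_add, ← P.intervalIntegral_comp_comm hfi]
    simp only [hg]
  have h3 : φ (t - a) (P (Γ.γ a)) - P (Γ.γ a) = ∫ s in a..t, g (φ (s - a) (P (Γ.γ a))) := by
    rw [intervalIntegral.integral_eq_sub_of_hasDerivAt
      (f := fun s => φ (s - a) (P (Γ.γ a))) (fun s _ => ((hφ _).2 (s - a)).comp_sub_const s a)
      (Continuous.intervalIntegrable (by fun_prop) _ _)]
    simp [(hφ _).1]
  have h4 : P (Γ.γ t) - φ (t - a) (P (Γ.γ a)) = P (∫ s in a..t, Γ.e s) +
      ∫ s in a..t, (g (P (Γ.γ s)) - g (φ (s - a) (P (Γ.γ a)))) := by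
    rw [intervalIntegral.integral_sub (Continuous.intervalIntegrable (by fun_prop) _ _)
      (Continuous.intervalIntegrable (by fun_prop) _ _), ← h3, ← sub_eq_iff_eq_add.mpr h2]
    abel
  simp only [h4]
  refine (norm_add_le _ _).trans (add_le_add ?_ ?_)
  · refine (hP _).trans ((intervalIntegral.norm_integral_le_integral_norm ht.1).trans ?_)
    exact Γ.I_mono le_rfl ht.1 ht.2
  · refine intervalIntegral.norm_integral_le_of_norm_le ht.1
      (Filter.Eventually.of_forall fun s _ => ?_) (Continuous.intervalIntegrable (by fun_prop) _ _)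
    simpa [dist_eq_norm] using hL.dist_le_mul (P (Γ.γ s)) (φ (s - a) (P (Γ.γ a)))

end Cv

/-- Successive crossing times of the integer levels. -/
lemma exists_times {τ : ℝ → ℝ} (hτ : Continuous τ) {T : ℝ} (N : ℕ) :
    ∀ a ∈ Icc 0 T, τ T = τ a + (N + 1) → ∃ ts : ℕ → ℝ, ts 0 = a ∧ ts (N + 1) = T ∧
      (∀ m, m ≤ N → ts m ≤ ts (m + 1)) ∧ ∀ m, m ≤ N + 1 → ts m ∈ Icc 0 T ∧ τ (ts m) = τ a + m := by
  induction N with
  | zero =>
    intro a ha h
    refine ⟨fun m => if m = 0 then a else T, by simp, by simp, fun m hm => ?_, fun m hm => ?_⟩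
    · obtain rfl : m = 0 := by omega
      simpa using ha.2
    · rcases Nat.le_one_iff_eq_zero_or_eq_one.mp hm with rfl | rfl
      · simpa using ha
      · simpa using ⟨ha.1.trans ha.2, by simpa using h⟩
  | succ N ih =>
    intro a ha h
    have hN : (0 : ℝ) ≤ N := N.cast_nonneg
    obtain ⟨a', ha', h'⟩ : τ a + 1 ∈ τ '' Icc a T :=
      intermediate_value_Icc ha.2 hτ.continuousOn ⟨by linarith, by rw [h]; push_cast; linarith⟩
    obtain ⟨ts, h0, h1, h2, h3⟩ := ih a' ⟨ha.1.trans ha'.1, ha'.2⟩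
      (by rw [h, h']; push_cast; ring)
    refine ⟨fun m => Nat.casesOn m a ts, rfl, h1, fun m hm => ?_, fun m hm => ?_⟩
    · cases m with
      | zero => simpa [h0] using ha'.1
      | succ m => exact h2 m (by omega)
    · cases m with
      | zero => simpa using ha
      | succ m =>
        refine ⟨(h3 m (by omega)).1, ?_⟩
        have := (h3 m (by omega)).2
        simp only [this, h']; push_cast; ring

end Pool.Agent.MP_3afe9c_an

end MrgPart4

-- marker of a merged file
example : 731051 + 316239 = 731051 + 316239 := rfl
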