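import Mathlib.MeasureTheory.Function.AbsolutelyContinuous

/-!
The flat torus `R^n / Z^n` is handled through its universal cover: points of the torus are
represented by points of `R^n`, vector fields are `Z^n`-periodic maps, and an absolutely
continuous curve of the torus from `x` to `y` is the projection of an absolutely continuous curve
of `R^n` from `x` to a lattice translate of `y`.
-/

set_option autoImplicit false

open MeasureTheory

namespace Pool.Agent.MP_3afe9c_an

variable {ι : Type} [Fintype ι]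

/-- Vectors of the lattice `Z^n`. -/
def IsLat (v : EuclideanSpace ℝ ι) : Prop := ∀ i, ∃ k : ℤ, v i = k

/-- The distance of the flat torus. -/
noncomputable def tdist (x y : EuclideanSpace ℝ ι) : ℝ :=
  ⨅ v : {v : EuclideanSpace ℝ ι // IsLat v}, ‖x - y - v.1‖

/-- `φ` is the flow of the vector field `f`. -/
def IsFlow (f : EuclideanSpace ℝ ι → EuclideanSpace ℝ ι)
    (φ : ℝ → EuclideanSpace ℝ ι → EuclideanSpace ℝ ι) : Prop :=
  ∀ x, φ 0 x = x ∧ ∀ t, HasDerivAt (fun s => φ s x) (f (φ t x)) t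

/-- The action of `γ` on `[0, t]` for the Lagrangian `L(x, v) = |v - f(x)|^2 / 2`. -/
noncomputable def action (f : EuclideanSpace ℝ ι → EuclideanSpace ℝ ι)
    (γ : ℝ → EuclideanSpace ℝ ι) (t : ℝ) : ENNReal :=
  ∫⁻ s in Set.Icc 0 t, ENNReal.ofReal (‖deriv γ s - f (γ s)‖ ^ 2 / 2)

/-- The minimal action `h_t(x, y)`. -/
noncomputable def minAction (f : EuclideanSpace ℝ ι → EuclideanSpace ℝ ι) (t : ℝ)
    (x y : EuclideanSpace ℝ ι) : ENNReal :=
  ⨅ γ : {γ : ℝ → EuclideanSpace ℝ ι //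
      AbsolutelyContinuousOnInterval γ 0 t ∧ γ 0 = x ∧ IsLat (γ t - y)}, action f γ.1 t

/-- The Peierls barrier. -/
noncomputable def peierls (f : EuclideanSpace ℝ ι → EuclideanSpace ℝ ι)
    (x y : EuclideanSpace ℝ ι) : ENNReal :=
  Filter.liminf (fun t : ℝ => minAction f t x y) Filter.atTop

/-- The projected Aubry set. -/
def aubry (f : EuclideanSpace ℝ ι → EuclideanSpace ℝ ι) : Set (EuclideanSpace ℝ ι) :=
  {x | peierls f x x = 0}

/-- Chain recurrent points of the flow `φ` on the torus. -/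
def ChainRec (φ : ℝ → EuclideanSpace ℝ ι → EuclideanSpace ℝ ι) (x : EuclideanSpace ℝ ι) : Prop :=
  ∀ ε : ℝ, 0 < ε → ∀ T : ℝ, 0 < T → ∃ (k : ℕ) (p : ℕ → EuclideanSpace ℝ ι) (t : ℕ → ℝ),
    1 ≤ k ∧ p 0 = x ∧ p k = x ∧
      ∀ i, i < k → T ≤ t i ∧ tdist (φ (t i) (p i)) (p (i + 1)) < ε

end Pool.Agent.MP_3afe9c_an
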