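import Mathlib.Algebra.Order.Ring.Star
import Mathlib.Analysis.Real.Pi.Bounds
import Pool.Agent.MP_3afe9c_an.Curve

-- ======== part 0: formerly Pool.Agent.MP_3afe9c_an.Field
section MrgPart0

/-!
The smooth periodic vector field whose time-one map simulates the machine.
-/

set_option autoImplicit false

open Set Real
open scoped ContDiff

namespace Pool.Agent.MP_3afe9c_an

abbrev Ix := Bool ⊕ (Bool × Peg × J)
abbrev E := EuclideanSpace ℝ Ix
abbrev iθ : Ix := Sum.inl false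
abbrev ih : Ix := Sum.inl true
abbrev iy (X : Peg) (j : J) : Ix := Sum.inr (false, X, j)
abbrev ir (X : Peg) (j : J) : Ix := Sum.inr (true, X, j)

def ctl6 (n : ZMod 6) : Peg × Bool :=
  if n = 0 then (0, false) else if n = 1 then (1, true) else if n = 2 then (1, false)
  else if n = 3 then (2, true) else if n = 4 then (2, false) else (0, true)

def ctl (n : ℤ) : Peg × Bool := ctl6 n

lemma ctl_succ (n : ℤ) : ctl (n + 1) = (nextp true (ctl n).1 (ctl n).2, !(ctl n).2) := by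
  simp only [ctl, Int.cast_add, Int.cast_one]
  generalize (n : ZMod 6) = m
  revert m; decide

lemma ctl_add (n k : ℤ) : ctl (n + 6 * k) = ctl n := by
  simp only [ctl, Int.cast_add, Int.cast_mul]
  have : ((6 : ℤ) : ZMod 6) = 0 := by decide
  rw [this, zero_mul, add_zero]

lemma ctl_surj (p : Peg) (b : Bool) : ∃ n : ℤ, ctl n = (p, b) := by
  have : ∃ n : Fin 6, ctl (n : ℕ) = (p, b) := by revert p b; decide
  obtain ⟨n, hn⟩ := this
  exact ⟨_, hn⟩

noncomputable def lg (l : List Sym) : ℝ := log (4 * (1 / 4) ^ l.length)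

noncomputable def sh : List Sym → (J → Bool) → J → ℝ
  | [], σ, j => -4 * off σ j
  | a :: l, σ, j => off (enc a) j + sh l σ j / 4

lemma exp_lg (l : List Sym) : exp (lg l) = 4 * (1 / 4) ^ l.length := exp_log (by positivity)

lemma app_eq (l : List Sym) (y : Y) (j : J) :
    app l y j = exp (lg l) * y j + sh l (bits y) j := by
  rw [exp_lg]
  induction l with
  | nil => simp only [app_nil, pop, sh, List.length_nil]; ring
  | cons a l ih =>
    have : app (a :: l) y j = off (enc a) j + app l y j / 4 := rfl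
    rw [this, ih, sh, List.length_cons]; ring

lemma exp_lg_mul_le (l : List Sym) {u : ℝ} (h0 : 0 ≤ u) (h1 : u ≤ 1) : exp (lg l * u) ≤ 4 := by
  have h : exp (lg l) ≤ 4 := by
    rw [exp_lg]
    have : ((1 : ℝ) / 4) ^ l.length ≤ 1 := pow_le_one₀ (by norm_num) (by norm_num)
    linarith
  rcases le_total 0 (lg l) with h2 | h2
  · exact (exp_le_exp.mpr (by nlinarith)).trans h
  · exact (exp_le_one_iff.mpr (by nlinarith)).trans (by norm_num)

noncomputable def progb (n : ℤ) (σ : Peg × J → Bool) (X : Peg) : List Sym :=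
  prog true (ctl n).1 (ctl n).2 (fun X => enc.symm fun j => σ (X, j)) X

noncomputable def rb (x : E) : Peg × J → ℝ := fun k => bet (x (ir k.1 k.2))

noncomputable def Hy (X : Peg) (j : J) (n : ℤ) (s : ℝ) (x : E) : ℝ :=
  psi 3 s * interp (fun σ => lg (progb n σ X)) (rb x) * sig (x (iy X j)) +
    psi 4 s * interp (fun σ => sh (progb n σ X) (fun j => σ (X, j)) j) (rb x)

noncomputable def Hr (X : Peg) (j : J) (_n : ℤ) (s : ℝ) (x : E) : ℝ :=
  psi 2 s * log 4 * ((2 * bet (x (iy X j)) - 1) / 16 - sig (x (ir X j)))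

noncomputable def Hc (_n : ℤ) (s : ℝ) (x : E) : ℝ :=
  100 * win s * ∑ k : Peg × J, eta (x (iy k.1 k.2))

noncomputable def fl (H : ℤ → ℝ → E → ℝ) (x : E) : ℝ :=
  H ⌊6 * x iθ⌋ (6 * x iθ - ⌊6 * x iθ⌋) x

noncomputable def cmp (κ : ℝ) (x : E) : Ix → ℝ
  | Sum.inl false => 1 / 6
  | Sum.inl true => κ * (cos (2 * π * x ih) * (1 - cos (2 * π * x ih) + fl Hc x))
  | Sum.inr (false, X, j) => fl (Hy X j) x
  | Sum.inr (true, X, j) => fl (Hr X j) x

noncomputable def fld (κ : ℝ) (x : E) : E := WithLp.toLp 2 (cmp κ x)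

lemma coord_contDiff (i : Ix) : ContDiff ℝ ∞ fun x : E => x i := contDiff_piLp_apply 2

lemma fld_contDiff (κ : ℝ) : ContDiff ℝ ∞ (fld κ) := by
  have hτ : Continuous fun x : E => 6 * x iθ := by fun_prop
  have hs : ∀ n : ℤ, ContDiff ℝ ∞ fun x : E => 6 * x iθ - n := fun n =>
    (contDiff_const.mul (coord_contDiff _)).sub contDiff_const
  have hrb : ∀ k, ContDiff ℝ ∞ fun x => rb x k := fun k => bet_contDiff.comp (coord_contDiff _)
  refine contDiff_euclidean.mpr fun i => ?_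
  rcases i with (_ | _) | ⟨_ | _, X, j⟩
  · exact contDiff_const
  · have h1 : ContDiff ℝ ∞ fun x : E => cos (2 * π * x ih) :=
      (contDiff_const.mul (coord_contDiff _)).cos
    have h2 : ContDiff ℝ ∞ (fl Hc) := by
      refine contDiff_floor hτ Hc (fun n => ?_) fun n s x hs => ?_
      · exact (contDiff_const.mul (win_contDiff.comp (hs n))).mul
          (ContDiff.sum fun k _ => eta_contDiff.comp (coord_contDiff _))
      · rw [Hc, win_zero (hs.imp id fun h => by linarith)]; simp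
    exact contDiff_const.mul (h1.mul ((contDiff_const.sub h1).add h2))
  · refine contDiff_floor hτ (Hy X j) (fun n => ?_) fun n s x hs => ?_
    · exact ((((psi_contDiff 3).comp (hs n)).mul (interp_contDiff _ hrb)).mul
        (sig_contDiff.comp (coord_contDiff _))).add
        (((psi_contDiff 4).comp (hs n)).mul (interp_contDiff _ hrb))
    · rw [Hy, psi_zero (hs.imp (fun h => by linarith) fun h => by linarith),
        psi_zero (hs.imp (fun h => by linarith) fun h => by linarith)]; simp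
  · refine contDiff_floor hτ (Hr X j) (fun n => ?_) fun n s x hs => ?_
    · exact (((psi_contDiff 2).comp (hs n)).mul contDiff_const).mul
        ((((contDiff_const.mul (bet_contDiff.comp (coord_contDiff _))).sub contDiff_const).div_const
          _).sub (sig_contDiff.comp (coord_contDiff _)))
    · rw [Hr, psi_zero (hs.imp (fun h => by linarith) fun h => by linarith)]; simp

lemma per_lat (F : ℝ → ℝ) (x : E) {v : E} (hv : IsLat v) (i : Ix) :
    per F ((x + v) i) = per F (x i) := by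
  obtain ⟨k, hk⟩ := hv i
  rw [PiLp.add_apply, hk, per_add_int]

lemma fl_lat {H : ℤ → ℝ → E → ℝ} (x : E) {v : E} (hv : IsLat v)
    (h : ∀ n k s, H (n + 6 * k) s (x + v) = H n s x) : fl H (x + v) = fl H x := by
  obtain ⟨k, hk⟩ := hv iθ
  have h1 : 6 * (x + v) iθ = 6 * x iθ + ((6 * k : ℤ) : ℝ) := by
    rw [PiLp.add_apply, hk]; push_cast; ring
  rw [fl, fl, h1, Int.floor_add_intCast, h]
  congr 1; push_cast; ring

lemma fld_lat (κ : ℝ) (x v : E) (hv : IsLat v) : fld κ (x + v) = fld κ x := by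
  have hrb : rb (x + v) = rb x := funext fun k => by simp only [rb, bet, per_lat _ x hv]
  ext i
  rcases i with (_ | _) | ⟨_ | _, X, j⟩
  · rfl
  · have h1 : cos (2 * π * (x + v) ih) = cos (2 * π * x ih) := by
      obtain ⟨k, hk⟩ := hv ih
      rw [PiLp.add_apply, hk, mul_add, mul_comm (2 * π) (k : ℝ), cos_add_int_mul_two_pi]
    have h2 : fl Hc (x + v) = fl Hc x :=
      fl_lat x hv fun n k s => by simp only [Hc, eta, per_lat _ x hv]
    simp only [fld, cmp, h1, h2]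
  · exact fl_lat (H := Hy X j) x hv fun n k s => by
      simp only [Hy, progb, ctl_add, hrb, sig, per_lat _ x hv]
  · exact fl_lat (H := Hr X j) x hv fun n k s => by simp only [Hr, sig, bet, per_lat _ x hv]

/-- The projection that forgets the coordinate `h`. -/
noncomputable def P : E →L[ℝ] E :=
  ContinuousLinearMap.id ℝ E - (EuclideanSpace.proj ih).smulRight (EuclideanSpace.single ih 1)

lemma P_apply (x : E) (i : Ix) : P x i = if i = ih then 0 else x i := by
  simp only [P, sub_apply, ContinuousLinearMap.id_apply,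
    ContinuousLinearMap.smulRight_apply, PiLp.sub_apply, PiLp.smul_apply,
    PiLp.single_apply, EuclideanSpace.coe_proj, smul_eq_mul]
  split_ifs with h
  · simp [h]
  · simp

lemma P_norm (x : E) : ‖P x‖ ≤ ‖x‖ := by
  rw [EuclideanSpace.norm_eq, EuclideanSpace.norm_eq]
  refine sqrt_le_sqrt (Finset.sum_le_sum fun i _ => ?_)
  rw [P_apply]; split_ifs
  · simp [sq_nonneg]
  · exact le_rfl

lemma fld_P (x : E) : fld 0 (P x) = P (fld 1 x) := by
  have hrb : rb (P x) = rb x := funext fun k => by simp [rb, P_apply]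
  ext i
  rw [P_apply]
  rcases i with (_ | _) | ⟨_ | _, X, j⟩
  · rfl
  · simp [fld, cmp]
  · simp [fld, cmp, fl, Hy, hrb, P_apply]
  · simp [fld, cmp, fl, Hr, P_apply]

noncomputable def mkc (θ : ℝ) (y r : Peg → Y) : Ix → ℝ
  | Sum.inl false => θ
  | Sum.inl true => 0
  | Sum.inr (false, X, j) => y X j
  | Sum.inr (true, X, j) => r X j

noncomputable def mk (θ : ℝ) (y r : Peg → Y) : E := WithLp.toLp 2 (mkc θ y r)

noncomputable def tg (u : ℝ) : ℝ := if 0 < u then 1 / 16 else -1 / 16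

/-- The machine state with clock `n`. -/
def st (n : ℤ) (y : Peg → Y) : St := ⟨(ctl n).1, (ctl n).2, y⟩

noncomputable def rn (y r : Peg → Y) : Peg → Y := fun X j => tg (y X j) + (r X j - tg (y X j)) / 4

noncomputable def pl (n : ℤ) (y : Peg → Y) (X : Peg) : List Sym :=
  prog true (ctl n).1 (ctl n).2 (st n y).σ X

noncomputable def sol (n : ℤ) (y r : Peg → Y) (s : ℝ) : E :=
  mk ((n + s) / 6)
    (fun X j => exp (lg (pl n y X) * Psi 3 s) * y X j + Psi 4 s * sh (pl n y X) (bits (y X)) j)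
    (fun X j => tg (y X j) + exp (-log 4 * Psi 2 s) * (r X j - tg (y X j)))

lemma sol_zero (n : ℤ) (y r : Peg → Y) : sol n y r 0 = mk (n / 6) y r := by
  simp only [sol, Psi_zero (a := 3) (s := 0) (by norm_num), Psi_zero (a := 4) (s := 0) (by norm_num),
    Psi_zero (a := 2) (s := 0) (by norm_num)]
  simp

lemma exp_neg_log4 : exp (-log 4) = 1 / 4 := by
  rw [exp_neg, exp_log (by norm_num)]; norm_num

lemma sol_one (n : ℤ) (y r : Peg → Y) :
    sol n y r 1 = mk ((n + 1) / 6) (step true (st n y)) (rn y r) := by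
  simp only [sol, Psi_one (a := 3) (s := 1) (by norm_num), Psi_one (a := 4) (s := 1) (by norm_num),
    Psi_one (a := 2) (s := 1) (by norm_num), mul_one, one_mul, exp_neg_log4]
  congr 1
  · funext X j
    exact (app_eq _ _ _).symm
  · funext X j
    simp only [rn]; ring

lemma hasDerivAt_coord {c : ℝ → E} {c' : E} {s : ℝ}
    (h : ∀ i, HasDerivAt (fun t => c t i) (c' i) s) : HasDerivAt c c' s :=
  (EuclideanSpace.equiv Ix ℝ).symm.hasFDerivAt.comp_hasDerivAt s (hasDerivAt_pi.mpr h)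

lemma sol_hasDerivAt' (n : ℤ) (y r : Peg → Y) (s : ℝ) :
    HasDerivAt (sol n y r) (mk (1 / 6)
      (fun X j => exp (lg (pl n y X) * Psi 3 s) * (lg (pl n y X) * psi 3 s) * y X j +
        psi 4 s * sh (pl n y X) (bits (y X)) j)
      (fun X j => exp (-log 4 * Psi 2 s) * (-log 4 * psi 2 s) * (r X j - tg (y X j)))) s := by
  refine hasDerivAt_coord fun i => ?_
  rcases i with (_ | _) | ⟨_ | _, X, j⟩
  · exact ((hasDerivAt_id s).const_add (n : ℝ)).div_const 6
  · exact hasDerivAt_const s (0 : ℝ)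
  · exact ((((Psi_hasDerivAt 3 s).const_mul _).exp).mul_const _).add
      ((Psi_hasDerivAt 4 s).mul_const _)
  · exact ((((Psi_hasDerivAt 2 s).const_mul _).exp).mul_const _).const_add _

lemma sol_continuous (n : ℤ) (y r : Peg → Y) : Continuous (sol n y r) :=
  continuous_iff_continuousAt.mpr fun s => (sol_hasDerivAt' n y r s).continuousAt

lemma tg_eq {u : ℝ} (h1 : 1 / 64 ≤ |u|) (h2 : |u| ≤ 3 / 64) : (2 * bet u - 1) / 16 = tg u := by
  rw [bet_eq (by linarith) (by linarith), tg]; split_ifs <;> norm_num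

lemma rn_le {y r : Peg → Y} (hr : ∀ X j, |r X j| ≤ 1 / 8) (X : Peg) (j : J) :
    |rn y r X j| ≤ 5 / 64 := by
  have := abs_le.mp (hr X j)
  simp only [rn, tg]
  split_ifs <;> rw [abs_le] <;> constructor <;> linarith [this.1, this.2]

lemma bet_rn {y r : Peg → Y} (hr : ∀ X j, |r X j| ≤ 1 / 8) (X : Peg) (j : J) :
    bet (rn y r X j) = if bits (y X) j then 1 else 0 := by
  have := abs_le.mp (hr X j)
  have h2 := rn_le (y := y) hr X j
  by_cases h : 0 < y X j
  · have h3 : 1 / 64 ≤ rn y r X j := by simp only [rn, tg, h, if_true]; linarith [this.1]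
    rw [bet_eq (by linarith) (by rw [abs_of_pos (by linarith)]; linarith), if_pos (by linarith)]
    simp [bits, h]
  · have h3 : rn y r X j ≤ -1 / 64 := by simp only [rn, tg, h, if_false]; linarith [this.2]
    rw [bet_eq (by linarith) (by rw [abs_of_neg (by linarith)]; linarith), if_neg (by linarith)]
    simp [bits, h]

lemma sol_hasDerivAt {κ : ℝ} (n : ℤ) {y r : Peg → Y} (hy : ∀ X, W (y X))
    (hr : ∀ X j, |r X j| ≤ 1 / 8) (hκ : κ = 0 ∨ ∀ X j, eta (y X j) = 0) {s : ℝ}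
    (hs : s ∈ Ico (0 : ℝ) 1) : HasDerivAt (sol n y r) (fld κ (sol n y r s)) s := by
  have hθ : 6 * sol n y r s iθ = n + s := by
    show 6 * ((n + s) / 6) = _; ring
  have hfl : ⌊(n : ℝ) + s⌋ = n := Int.floor_eq_iff.mpr ⟨by linarith [hs.1], by linarith [hs.2]⟩
  have hF : ∀ H, fl H (sol n y r s) = H n s (sol n y r s) := fun H => by
    rw [fl, hθ, hfl]; congr 1; ring
  have hy0 : 6 * s ≤ 3 → ∀ X j, sol n y r s (iy X j) = y X j := fun h X j => by
    show exp (lg (pl n y X) * Psi 3 s) * y X j + Psi 4 s * sh (pl n y X) (bits (y X)) j = _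
    rw [Psi_zero h, Psi_zero (by linarith)]; simp
  have hr1 : 3 ≤ 6 * s → ∀ k, rb (sol n y r s) k = if bits (y k.1) k.2 then 1 else 0 := by
    intro h k
    rw [← bet_rn hr]
    show bet (tg (y k.1 k.2) + exp (-log 4 * Psi 2 s) * (r k.1 k.2 - tg (y k.1 k.2))) = _
    rw [Psi_one (by linarith), mul_one, exp_neg_log4]
    congr 1; simp only [rn]; ring
  convert sol_hasDerivAt' n y r s using 1
  ext i
  rcases i with (_ | _) | ⟨_ | _, X, j⟩
  · rfl
  · show κ * (cos (2 * π * 0) * (1 - cos (2 * π * 0) + fl Hc (sol n y r s))) = 0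
    rcases hκ with rfl | hκ
    · simp
    · rw [hF, Hc]
      rcases le_total s (1 / 3) with h | h
      · simp [hy0 (by linarith), hκ]
      · simp [win_zero (Or.inr h)]
  · show fl (Hy X j) (sol n y r s) =
      exp (lg (pl n y X) * Psi 3 s) * (lg (pl n y X) * psi 3 s) * y X j +
        psi 4 s * sh (pl n y X) (bits (y X)) j
    rw [hF, Hy]
    rcases le_total (6 * s) 3 with h | h
    · rw [psi_zero (Or.inl h), psi_zero (Or.inl (by linarith))]; simp
    · rw [interp_eq _ (hr1 h), interp_eq _ (hr1 h)]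
      have e1 : progb n (fun k => bits (y k.1) k.2) X = pl n y X := rfl
      rw [e1]
      congr 1
      rcases le_total (6 * s) 4 with h' | h'
      · have : sol n y r s (iy X j) = exp (lg (pl n y X) * Psi 3 s) * y X j := by
          show exp (lg (pl n y X) * Psi 3 s) * y X j +
            Psi 4 s * sh (pl n y X) (bits (y X)) j = _
          rw [Psi_zero h']; simp
        rw [this, sig_eq]
        · ring
        · rw [abs_mul, abs_of_pos (exp_pos _)]
          have h1 := exp_lg_mul_le (pl n y X) (Psi_nonneg 3 s) (Psi_le_one 3 s)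
          have h2 := (hy X j).2
          nlinarith [abs_nonneg (y X j), exp_pos (lg (pl n y X) * Psi 3 s)]
      · rw [psi_zero (Or.inr (by linarith))]; simp
  · show fl (Hr X j) (sol n y r s) =
      exp (-log 4 * Psi 2 s) * (-log 4 * psi 2 s) * (r X j - tg (y X j))
    rw [hF, Hr]
    rcases le_total (6 * s) 3 with h | h
    · rw [hy0 h, tg_eq (hy X j).1 (hy X j).2]
      have : sol n y r s (ir X j) = tg (y X j) + exp (-log 4 * Psi 2 s) * (r X j - tg (y X j)) :=
        rfl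
      rw [this, sig_eq]
      · ring
      · have h1 : exp (-log 4 * Psi 2 s) ≤ 1 := exp_le_one_iff.mpr (by
          have : 0 ≤ log 4 := log_nonneg (by norm_num)
          nlinarith [Psi_nonneg 2 s])
        have h2 := exp_pos (-log 4 * Psi 2 s)
        have h3 := abs_le.mp (hr X j)
        rw [tg]
        split_ifs <;> rw [abs_le] <;> constructor <;> nlinarith [h3.1, h3.2]
    · rw [psi_zero (Or.inr (by linarith))]; simp

lemma flow_one {κ : ℝ} {φ : ℝ → E → E} (hφ : IsFlow (fld κ) φ) (n : ℤ) {y r : Peg → Y}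
    (hy : ∀ X, W (y X)) (hr : ∀ X j, |r X j| ≤ 1 / 8) (hκ : κ = 0 ∨ ∀ X j, eta (y X j) = 0) :
    φ 1 (mk (n / 6) y r) = mk ((n + 1) / 6) (step true (st n y)) (rn y r) := by
  obtain ⟨L, hL⟩ := lipschitz_of_periodic (fld_contDiff κ) (fld_lat κ)
  rw [← sol_zero, ← sol_one]
  exact hφ.eq_of hL zero_le_one (sol_continuous n y r).continuousOn
    fun t ht => sol_hasDerivAt n hy hr hκ ht

end Pool.Agent.MP_3afe9c_an

end MrgPart0

-- ======== part 1: formerly Pool.Agent.MP_3afe9c_an.Lower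
section MrgPart1

/-!
Lower bound for the action of loops through an overflow state.
-/

set_option autoImplicit false

open Set Real MeasureTheory
open scoped ContDiff NNReal

namespace Pool.Agent.MP_3afe9c_an

noncomputable def V (x : ℝ) : ℝ :=
  sin (2 * π * x) / (2 * π) - x / 2 - sin (2 * π * x) * cos (2 * π * x) / (4 * π)

noncomputable def G (x : ℝ) : ℝ := cos (2 * π * x) * (1 - cos (2 * π * x))

lemma V_hasDerivAt (x : ℝ) : HasDerivAt V (G x) x := by
  have h : HasDerivAt (fun x : ℝ => 2 * π * x) (2 * π) x := by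
    simpa using (hasDerivAt_id x).const_mul (2 * π)
  have := ((h.sin.div_const (2 * π)).sub ((hasDerivAt_id x).div_const 2)).sub
    ((h.sin.mul h.cos).div_const (4 * π))
  refine HasDerivAt.congr_deriv this ?_
  have h1 := sin_sq_add_cos_sq (2 * π * x)
  have := pi_pos
  simp only [G]
  field_simp
  linear_combination (4) * h1

lemma V_lip : LipschitzWith 2 V := by
  refine lipschitzWith_of_nnnorm_deriv_le (fun x => (V_hasDerivAt x).differentiableAt) fun x => ?_
  rw [(V_hasDerivAt x).deriv]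
  have h1 := cos_le_one (2 * π * x)
  have h2 := neg_one_le_cos (2 * π * x)
  have : ‖G x‖ ≤ 2 := by
    rw [Real.norm_eq_abs, G, abs_le]; constructor <;> nlinarith
  exact_mod_cast this

lemma V_neg (x : ℝ) : V (-x) = -V x := by
  simp only [V, mul_neg, sin_neg, cos_neg]; ring

lemma V_int (k : ℤ) : V k = -k / 2 := by
  have : sin (2 * π * k) = 0 := by
    rw [show 2 * π * k = ((2 * k : ℤ) : ℝ) * π by push_cast; ring, sin_int_mul_pi]
  simp only [V, this]; ring

lemma V_sixth : 1 / 100 ≤ V (1 / 6) := by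
  have h : 2 * π * (1 / 6) = π / 3 := by ring
  have h1 := pi_pos
  have h2 := pi_lt_d2
  have h3 : (1.7 : ℝ) ≤ √3 := le_sqrt_of_sq_le (by norm_num)
  simp only [V, h, sin_pi_div_three, cos_pi_div_three]
  have : √3 / 2 / (2 * π) - 1 / 6 / 2 - √3 / 2 * (1 / 2) / (4 * π) = 3 * √3 / (16 * π) - 1 / 12 := by
    field_simp; ring
  rw [this, le_sub_iff_add_le, le_div_iff₀ (by positivity)]
  nlinarith

lemma fl_Hc_nonneg (x : E) : 0 ≤ fl Hc x :=
  mul_nonneg (mul_nonneg (by norm_num) (win_nonneg _)) (Finset.sum_nonneg fun _ _ => eta_nonneg _)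

lemma fld_cont : Continuous (fld 1) := (fld_contDiff 1).continuous

lemma fld_coord_cont {γ : ℝ → E} (h : Continuous γ) (i : Ix) : Continuous fun t => fld 1 (γ t) i :=
  (coord_contDiff i).continuous.comp (fld_cont.comp h)

section
variable {T : ℝ} (Γ : Cv (fld 1) T)

lemma V_drop {a b : ℝ} (ha : a ∈ Icc 0 T) (hb : b ∈ Icc 0 T) (hab : a ≤ b) :
    -(∫ t, ‖Γ.e t‖ ^ 2) / 4 ≤ V (Γ.γ b ih) - V (Γ.γ a ih) := by
  rw [Γ.chain ih V G 2 V_hasDerivAt V_lip a ha b hb]
  have h1 := Γ.S_le hab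
  have h2 : -Γ.S a b / 4 = ∫ t in a..b, -‖Γ.e t‖ ^ 2 / 4 := by
    rw [intervalIntegral.integral_div, intervalIntegral.integral_neg]; rfl
  refine le_trans (by linarith) (h2.le.trans ?_)
  have hc := Γ.cont
  refine intervalIntegral.integral_mono_on hab (Γ.e2.neg.div_const 4).intervalIntegrable ?_
    fun t _ => ?_
  · refine IntervalIntegrable.continuousOn_mul ?_ (Continuous.continuousOn ?_)
    · exact ((fld_coord_cont hc ih).intervalIntegrable _ _).add (Γ.ecoord ih).intervalIntegrable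
    · unfold G; fun_prop
  · have e1 : fld 1 (Γ.γ t) ih = 1 * (cos (2 * π * Γ.γ t ih) *
      (1 - cos (2 * π * Γ.γ t ih) + fl Hc (Γ.γ t))) := rfl
    have e2 : |Γ.e t ih| ≤ ‖Γ.e t‖ := PiLp.norm_apply_le (Γ.e t) ih
    have e3 : Γ.e t ih ^ 2 ≤ ‖Γ.e t‖ ^ 2 := by rw [← sq_abs]; gcongr
    rw [e1, G]
    set c := cos (2 * π * Γ.γ t ih)
    have h3 : c ≤ 1 := cos_le_one _
    have h4 : 0 ≤ c ^ 2 * (1 - c) * fl Hc (Γ.γ t) :=
      mul_nonneg (mul_nonneg (sq_nonneg _) (by linarith)) (fl_Hc_nonneg _)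
    nlinarith [sq_nonneg (c * (1 - c) + Γ.e t ih / 2)]

lemma hconf (hT : 0 ≤ T) (h0 : Γ.γ 0 ih = 0) {k : ℤ} (h1 : Γ.γ T ih = k)
    (hS : ∫ t, ‖Γ.e t‖ ^ 2 ≤ 1 / 100) {t : ℝ} (ht : t ∈ Icc 0 T) : |Γ.γ t ih| ≤ 1 / 6 := by
  have hc : Continuous fun t => Γ.γ t ih := by have := Γ.cont; fun_prop
  have hV0 : V 0 = 0 := by simp [V]
  have hlow : ∀ t ∈ Icc 0 T, -(1 / 6) < Γ.γ t ih := by
    intro t ht
    by_contra hcon
    obtain ⟨u, hu, hu'⟩ : -(1 / 6) ∈ (fun t => Γ.γ t ih) '' Icc 0 t :=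
      intermediate_value_Icc' ht.1 hc.continuousOn ⟨not_lt.mp hcon, by rw [h0]; norm_num⟩
    have := V_drop Γ ⟨le_rfl, hT⟩ ⟨hu.1, hu.2.trans ht.2⟩ hu.1
    simp only at hu'
    rw [hu', h0, V_neg, hV0] at this
    linarith [V_sixth]
  have hk : k = 0 := by
    have h2 := hlow T ⟨hT, le_rfl⟩
    have h3 := V_drop Γ ⟨le_rfl, hT⟩ ⟨hT, le_rfl⟩ hT
    rw [h1, h0, V_int, hV0] at h3
    rw [h1] at h2
    have h4 : (-1 : ℝ) < k := by linarith
    have h5 : (k : ℝ) < 1 := by linarith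
    have h6 : -1 < k := by exact_mod_cast h4
    have h7 : k < 1 := by exact_mod_cast h5
    omega
  subst hk
  rw [abs_le]
  refine ⟨(hlow t ht).le, ?_⟩
  by_contra hcon
  obtain ⟨u, hu, hu'⟩ : 1 / 6 ∈ (fun t => Γ.γ t ih) '' Icc t T :=
    intermediate_value_Icc' ht.2 hc.continuousOn ⟨by rw [h1]; norm_num, (not_le.mp hcon).le⟩
  have := V_drop Γ ⟨ht.1.trans hu.1, hu.2⟩ ⟨hT, le_rfl⟩ hu.2
  simp only at hu'
  rw [hu', h1, Int.cast_zero, hV0] at this
  linarith [V_sixth]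

lemma theta_eq {a b : ℝ} (ha : a ∈ Icc 0 T) (hb : b ∈ Icc 0 T) (hab : a ≤ b) :
    |6 * Γ.γ b iθ - 6 * Γ.γ a iθ - (b - a)| ≤ 6 * Γ.I a b := by
  have h1 := Γ.coord fld_cont iθ ha hb
  have h2 : ∀ x, fld 1 x iθ = 1 / 6 := fun _ => rfl
  simp only [h2, intervalIntegral.integral_const, smul_eq_mul] at h1
  have h3 := abs_le.mp (Γ.abs_int_le iθ hab)
  rw [abs_le]; constructor <;> linarith [h3.1, h3.2]

end

lemma fl_Hy_zero (X : Peg) (j : J) {x : E} {n : ℤ} (h1 : n - 1 / 6 ≤ 6 * x iθ)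
    (h2 : 6 * x iθ ≤ n + 1 / 2) : fl (Hy X j) x = 0 := by
  rcases lt_or_ge (6 * x iθ) n with h | h
  · have : ⌊6 * x iθ⌋ = n - 1 :=
      Int.floor_eq_iff.mpr ⟨by push_cast; linarith, by push_cast; linarith⟩
    rw [fl, this, Hy, psi_zero (Or.inr (by push_cast; linarith)),
      psi_zero (Or.inr (by push_cast; linarith))]; simp
  · have : ⌊6 * x iθ⌋ = n := Int.floor_eq_iff.mpr ⟨h, by linarith⟩
    rw [fl, this, Hy, psi_zero (Or.inl (by linarith)), psi_zero (Or.inl (by linarith))]; simp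

lemma fl_Hc_ge (X : Peg) (j : J) {x : E} {n : ℤ} (h1 : n + 5 / 24 ≤ 6 * x iθ)
    (h2 : 6 * x iθ ≤ n + 7 / 24) (h3 : 1 ≤ eta (x (iy X j))) : 100 ≤ fl Hc x := by
  have : ⌊6 * x iθ⌋ = n := Int.floor_eq_iff.mpr ⟨by linarith, by linarith⟩
  rw [fl, this, Hc, win_one (by linarith) (by linarith)]
  have := Finset.single_le_sum (f := fun k : Peg × J => eta (x (iy k.1 k.2)))
    (fun _ _ => eta_nonneg _) (Finset.mem_univ (X, j))
  linarith

lemma half_le_cos {h : ℝ} (hh : |h| ≤ 1 / 6) : 1 / 2 ≤ cos (2 * π * h) := by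
  rw [← cos_pi_div_three, ← cos_abs (2 * π * h)]
  have := pi_pos
  refine cos_le_cos_of_nonneg_of_le_pi (abs_nonneg _) (by linarith) ?_
  rw [abs_mul, abs_of_pos (by positivity)]
  nlinarith

section
variable {T : ℝ} (Γ : Cv (fld 1) T)

lemma check (hh : ∀ t ∈ Icc 0 T, |Γ.γ t ih| ≤ 1 / 6) {a : ℝ} (ha : 0 ≤ a) (hT : a + 13 / 48 ≤ T)
    {n : ℤ} (hn : 6 * Γ.γ a iθ = n) (hI : Γ.I a (a + 13 / 48) ≤ 1 / 1000) (X : Peg)
    (hy : ∀ j, |Γ.γ a (iy X j)| ≤ 1 / 8) : W fun j => Γ.γ a (iy X j) := by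
  intro j
  by_contra hcon
  have ha' : a ∈ Icc 0 T := ⟨ha, by linarith⟩
  have hm : ∀ t ∈ Icc a (a + 13 / 48), t ∈ Icc 0 T := fun t ht => ⟨ha.trans ht.1, ht.2.trans hT⟩
  have hθ : ∀ t ∈ Icc a (a + 13 / 48), |6 * Γ.γ t iθ - n - (t - a)| ≤ 6 / 1000 := by
    intro t ht
    have := theta_eq Γ ha' (hm t ht) ht.1
    have h2 := Γ.I_mono le_rfl ht.1 ht.2
    rw [hn] at this; linarith
  have hyt : ∀ t ∈ Icc a (a + 13 / 48), |Γ.γ t (iy X j) - Γ.γ a (iy X j)| ≤ 1 / 1000 := by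
    intro t ht
    rw [Γ.coord fld_cont _ ha' (hm t ht), intervalIntegral.integral_congr (g := fun _ => 0)]
    · simp only [intervalIntegral.integral_zero, zero_add]
      exact (Γ.abs_int_le _ ht.1).trans ((Γ.I_mono le_rfl ht.1 ht.2).trans hI)
    · intro s hs
      rw [uIcc_of_le ht.1] at hs
      have := abs_le.mp (hθ s ⟨hs.1, hs.2.trans ht.2⟩)
      exact fl_Hy_zero X j (n := n) (by linarith [this.1, hs.1]) (by linarith [this.2, hs.2, ht.2])
  have h1 : a + 11 / 48 ∈ Icc a (a + 13 / 48) := ⟨by linarith, by linarith⟩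
  have h2 : a + 13 / 48 ∈ Icc a (a + 13 / 48) := ⟨by linarith, le_rfl⟩
  have h3 := Γ.coord fld_cont ih (hm _ h1) (hm _ h2)
  have h4 : ∫ _t in (a + 11 / 48)..(a + 13 / 48), (50 : ℝ) ≤
      ∫ t in (a + 11 / 48)..(a + 13 / 48), fld 1 (Γ.γ t) ih := by
    have hc := Γ.cont
    refine intervalIntegral.integral_mono_on (by linarith) intervalIntegrable_const
      ((fld_coord_cont hc ih).intervalIntegrable _ _) fun t ht => ?_
    have ht' : t ∈ Icc a (a + 13 / 48) := ⟨by linarith [ht.1], ht.2⟩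
    have e1 : fld 1 (Γ.γ t) ih = 1 * (cos (2 * π * Γ.γ t ih) *
      (1 - cos (2 * π * Γ.γ t ih) + fl Hc (Γ.γ t))) := rfl
    have c1 := half_le_cos (hh t (hm t ht'))
    have c2 := cos_le_one (2 * π * Γ.γ t ih)
    have c3 := abs_le.mp (hθ t ht')
    have c4 := hyt t ht'
    have c5 := abs_sub_abs_le_abs_sub (Γ.γ t (iy X j)) (Γ.γ a (iy X j))
    have c6 := abs_sub_abs_le_abs_sub (Γ.γ a (iy X j)) (Γ.γ t (iy X j))
    rw [abs_sub_comm] at c6
    have c7 : 100 ≤ fl Hc (Γ.γ t) := by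
      refine fl_Hc_ge X j (n := n) (by linarith [c3.1, ht.1]) (by linarith [c3.2, ht.2])
        (eta_one (by linarith [hy j]) ?_)
      rcases not_and_or.mp hcon with h | h
      · exact Or.inl (by linarith [not_le.mp h])
      · exact Or.inr (by linarith [not_le.mp h])
    rw [e1]; nlinarith
  have h5 := abs_le.mp (Γ.abs_int_le ih (show a + 11 / 48 ≤ a + 13 / 48 by linarith))
  have h6 := Γ.I_mono h1.1 h1.2 le_rfl
  have h7 := abs_le.mp (hh _ (hm _ h1))
  have h8 := abs_le.mp (hh _ (hm _ h2))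
  simp only [intervalIntegral.integral_const, smul_eq_mul] at h4
  linarith [h5.1, h7.1, h8.2]

lemma len_le {a b : ℝ} (ha : a ∈ Icc 0 T) (hb : b ∈ Icc 0 T) (hab : a ≤ b)
    (h : 6 * Γ.γ b iθ = 6 * Γ.γ a iθ + 1) (hS : ∫ t, ‖Γ.e t‖ ^ 2 ≤ 1 / 100) : b - a ≤ 2 := by
  have h1 := abs_le.mp (theta_eq Γ ha hb hab)
  have h2 := Γ.I_le hab (1 / 12)
  have h3 := Γ.S_le hab
  linarith [h1.1]

end

lemma exists_step_const : ∃ C : ℝ, 1 ≤ C ∧ ∀ (T : ℝ) (Γ : Cv (fld 1) T) (a b : ℝ) (n : ℤ),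
    a ∈ Icc 0 T → b ∈ Icc 0 T → a ≤ b → b - a ≤ 2 → 6 * Γ.γ a iθ = n → 6 * Γ.γ b iθ = n + 1 →
    (∀ X, W fun j => Γ.γ a (iy X j)) → (∀ X j, |Γ.γ a (ir X j)| ≤ 1 / 8) →
    ∀ X j, |Γ.γ b (iy X j) - step true (st n fun X j => Γ.γ a (iy X j)) X j| ≤ C * Γ.I a b ∧
      |Γ.γ b (ir X j)| ≤ 5 / 64 + C * Γ.I a b := by
  obtain ⟨L, hL⟩ := lipschitz_of_periodic (fld_contDiff 0) (fld_lat 0)
  obtain ⟨M, hM⟩ := bounded_of_periodic (fld_contDiff 0).continuous (fld_lat 0)
  obtain ⟨φ, hφ⟩ := exists_flow hL hM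
  have hM0 : 0 ≤ M := (norm_nonneg _).trans (hM 0)
  have hL0 : (0 : ℝ) ≤ L := L.2
  refine ⟨exp (L * 2) + 6 * M, by linarith [one_le_exp (show (0 : ℝ) ≤ L * 2 by positivity)], ?_⟩
  intro T Γ a b n ha hb hab h2 hna hnb hy hr X j
  have hI := Γ.I_nonneg hab
  have h1 := Γ.shadow fld_cont hL hφ P P_norm fld_P ha hb hab
  have h3 := hφ.time hM (b - a) 1 (P (Γ.γ a))
  have h4 := theta_eq Γ ha hb hab
  rw [hna, hnb, show (n : ℝ) + 1 - n - (b - a) = -(b - a - 1) by ring, abs_neg] at h4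
  have h5 : P (Γ.γ a) = mk (n / 6) (fun X j => Γ.γ a (iy X j)) fun X j => Γ.γ a (ir X j) := by
    ext i
    rw [P_apply]
    rcases i with (_ | _) | ⟨_ | _, X, j⟩
    · show Γ.γ a iθ = n / 6
      linarith
    all_goals rfl
  have h6 := flow_one hφ n hy hr (Or.inl rfl)
  rw [← h5] at h6
  have h7 : ‖P (Γ.γ b) - φ 1 (P (Γ.γ a))‖ ≤ (exp (L * 2) + 6 * M) * Γ.I a b := by
    have e1 : exp (L * (b - a)) ≤ exp (L * 2) := exp_le_exp.mpr (by nlinarith)
    calc _ ≤ ‖P (Γ.γ b) - φ (b - a) (P (Γ.γ a))‖ + ‖φ (b - a) (P (Γ.γ a)) - φ 1 (P (Γ.γ a))‖ :=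
          norm_sub_le_norm_sub_add_norm_sub _ _ _
      _ ≤ _ := by nlinarith
  rw [h6] at h7
  have h8 := (PiLp.norm_apply_le _ (iy X j)).trans h7
  have h9 := (PiLp.norm_apply_le _ (ir X j)).trans h7
  rw [PiLp.sub_apply, P_apply, if_neg (by simp), Real.norm_eq_abs] at h8 h9
  refine ⟨h8, ?_⟩
  have h10 := rn_le (y := fun X j => Γ.γ a (iy X j)) hr X j
  have h11 : |Γ.γ b (ir X j) - rn (fun X j => Γ.γ a (iy X j)) (fun X j => Γ.γ a (ir X j)) X j| ≤
    (exp (L * 2) + 6 * M) * Γ.I a b := h9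
  have := abs_sub_abs_le_abs_sub (Γ.γ b (ir X j))
    (rn (fun X j => Γ.γ a (iy X j)) (fun X j => Γ.γ a (ir X j)) X j)
  linarith

theorem action_lower : ∃ c : ℝ, 0 < c ∧ ∀ (n0 : ℤ) (y0 r0 : Peg → Y), (∀ X, W (y0 X)) →
    (∀ X j, |r0 X j| ≤ 1 / 8) → ovf (st n0 y0) = 1 → ∀ T : ℝ, 1 ≤ T → ∀ γ : ℝ → E,
    AbsolutelyContinuousOnInterval γ 0 T → γ 0 = mk (n0 / 6) y0 r0 →
    IsLat (γ T - mk (n0 / 6) y0 r0) → ENNReal.ofReal c ≤ action (fld 1) γ T := by
  obtain ⟨C, hC, hstep⟩ := exists_step_const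
  refine ⟨1 / (10 ^ 7 * C ^ 2), by positivity, ?_⟩
  intro n0 y0 r0 hy0 hr0 ho T hT γ hγ h0 hlat
  by_contra hcon
  obtain ⟨Γ, g0, gT, hS⟩ := exists_cv fld_cont (by linarith) hγ (by positivity) (not_le.mp hcon)
  rw [← h0, ← g0, ← gT] at hlat
  rw [← g0] at h0
  have hT0 : 0 ≤ T := by linarith
  have hC2 : 1 ≤ C ^ 2 := one_le_pow₀ hC
  have hSC : C ^ 2 * ∫ t, ‖Γ.e t‖ ^ 2 ≤ 2 / 10 ^ 7 := by
    calc _ ≤ C ^ 2 * (2 * (1 / (10 ^ 7 * C ^ 2))) := by gcongr
      _ = _ := by field_simp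
  have hS0 : 0 ≤ ∫ t, ‖Γ.e t‖ ^ 2 := integral_nonneg fun _ => sq_nonneg _
  have hS1 : ∫ t, ‖Γ.e t‖ ^ 2 ≤ 1 / 100 := by nlinarith
  obtain ⟨kh, hkh⟩ := hlat ih
  have hh0 : Γ.γ 0 ih = 0 := by rw [h0]; rfl
  rw [PiLp.sub_apply, hh0, sub_zero] at hkh
  have hh : ∀ t ∈ Icc 0 T, |Γ.γ t ih| ≤ 1 / 6 := fun t ht => hconf Γ hT0 hh0 hkh hS1 ht
  obtain ⟨k, hk⟩ := hlat iθ
  rw [PiLp.sub_apply] at hk
  have hθ0 : 6 * Γ.γ 0 iθ = n0 := by rw [h0]; show 6 * ((n0 : ℝ) / 6) = _; ring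
  have hk0 : 0 < k := by
    have h1 := abs_le.mp (theta_eq Γ ⟨le_rfl, hT0⟩ ⟨hT0, le_rfl⟩ hT0)
    have h2 := Γ.I_le hT0 (1 / 12)
    have h3 := Γ.S_le hT0
    have : (0 : ℝ) < k := by linarith [h1.1]
    exact_mod_cast this
  obtain ⟨N, hN⟩ : ∃ N : ℕ, (N : ℤ) + 1 = 6 * k := ⟨(6 * k - 1).toNat, by omega⟩
  have hN' : (N : ℝ) + 1 = 6 * k := by exact_mod_cast hN
  obtain ⟨ts, t0, tN, tmono, tval⟩ := exists_times (τ := fun t => 6 * Γ.γ t iθ)
    (by have := Γ.cont; fun_prop) (T := T) N 0 ⟨le_rfl, hT0⟩ (by linarith)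
  simp only [hθ0] at tval
  have hlen : ∀ m, m ≤ N → ts (m + 1) - ts m ≤ 2 := fun m hm =>
    len_le Γ (tval m (by omega)).1 (tval (m + 1) (by omega)).1 (tmono m hm)
      (by rw [(tval m (by omega)).2, (tval (m + 1) (by omega)).2]; push_cast; ring) hS1
  have hIm : ∀ m, m ≤ N → C * Γ.I (ts m) (ts (m + 1)) ≤ 1 / 1000 := by
    intro m hm
    have h1 := Γ.I_sq_le (tmono m hm) (hlen m hm)
    have h2 := Γ.S_le (tmono m hm)
    refine (abs_le_of_sq_le_sq' ?_ (by norm_num)).2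
    rw [mul_pow]
    nlinarith
  have hW : ∀ m, m ≤ N → (∀ X j, |Γ.γ (ts m) (iy X j)| ≤ 1 / 8) →
      ∀ X, W fun j => Γ.γ (ts m) (iy X j) := by
    intro m hm hy X
    have h1 := hIm m hm
    have h2 := Γ.I_nonneg (tmono m hm)
    have h3 : Γ.I (ts m) (ts (m + 1)) ≤ 1 / 1000 := by nlinarith
    have h4 := abs_le.mp (theta_eq Γ (tval m (by omega)).1 (tval (m + 1) (by omega)).1 (tmono m hm))
    rw [(tval m (by omega)).2, (tval (m + 1) (by omega)).2] at h4
    push_cast at h4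
    have h5 : ts m + 13 / 48 ≤ ts (m + 1) := by linarith [h4.2]
    refine check Γ hh (tval m (by omega)).1.1 (h5.trans (tval (m + 1) (by omega)).1.2)
      (n := n0 + m) (by rw [(tval m (by omega)).2]; push_cast; ring)
      ((Γ.I_mono le_rfl (by linarith) h5).trans h3) X (hy X)
  have hst : ∀ m, m ≤ N → (∀ X j, |Γ.γ (ts m) (iy X j)| ≤ 1 / 8) →
      (∀ X j, |Γ.γ (ts m) (ir X j)| ≤ 1 / 8) → _ := fun m hm hy hr =>
    hstep T Γ (ts m) (ts (m + 1)) (n0 + m) (tval m (by omega)).1 (tval (m + 1) (by omega)).1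
      (tmono m hm) (hlen m hm) (by rw [(tval m (by omega)).2]; push_cast; ring)
      (by rw [(tval (m + 1) (by omega)).2]; push_cast; ring) (hW m hm hy) hr
  have hbd : ∀ m, m ≤ N + 1 → (∀ X j, |Γ.γ (ts m) (iy X j)| ≤ 1 / 8) ∧
      ∀ X j, |Γ.γ (ts m) (ir X j)| ≤ 1 / 8 := by
    intro m
    induction m with
    | zero =>
      intro _
      rw [t0, h0]
      exact ⟨fun X j => (hy0 X j).2.trans (by norm_num), hr0⟩
    | succ m ih =>
      intro hm
      obtain ⟨hy, hr⟩ := ih (by omega)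
      have h1 := hst m (by omega) hy hr
      have h2 := hIm m (by omega)
      refine ⟨fun X j => ?_, fun X j => by linarith [(h1 X j).2]⟩
      have h3 : |step true (st (n0 + m) fun X j => Γ.γ (ts m) (iy X j)) X j| ≤ 1 / 16 :=
        app_q (hW m (by omega) hy X) _ j
      have := abs_sub_abs_le_abs_sub (Γ.γ (ts (m + 1)) (iy X j))
        (step true (st (n0 + m) fun X j => Γ.γ (ts m) (iy X j)) X j)
      linarith [(h1 X j).1]
  set z : ℕ → St := fun m => st (n0 + m) fun X j => Γ.γ (ts m) (iy X j) with hz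
  have hz0 : z 0 = st n0 y0 := by
    simp only [hz, t0, h0, Nat.cast_zero, add_zero]; rfl
  have hzN : z (N + 1) = z 0 := by
    have hy : (fun X j => Γ.γ (ts (N + 1)) (iy X j)) = fun X j => Γ.γ (ts 0) (iy X j) := by
      funext X j
      obtain ⟨l, hl⟩ := hlat (iy X j)
      have h1 := abs_le.mp ((hbd (N + 1) le_rfl).1 X j)
      have h2 := abs_le.mp ((hbd 0 (by omega)).1 X j)
      rw [tN] at h1 ⊢
      rw [t0] at h2 ⊢
      rw [PiLp.sub_apply] at hl
      have h4 : (-1 : ℝ) < l := by linarith [h1.1, h2.2]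
      have h5 : (l : ℝ) < 1 := by linarith [h1.2, h2.1]
      have h6 : -1 < l := by exact_mod_cast h4
      have h7 : l < 1 := by exact_mod_cast h5
      have : l = 0 := by omega
      rw [this] at hl
      simpa [sub_eq_zero] using hl
    simp only [hz, hy, st, Nat.cast_add, Nat.cast_one, hN, ctl_add, Nat.cast_zero, add_zero]
  have hO : Orb true z (fun m => C * Γ.I (ts m) (ts (m + 1))) (N + 1) := by
    refine ⟨fun m hm => ?_, fun m hm => ⟨?_, ?_, fun X j => ?_⟩⟩
    · rcases Nat.lt_or_ge m (N + 1) with h | h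
      · exact hW m (by omega) (hbd m hm).1
      · obtain rfl : m = N + 1 := by omega
        rw [hzN, hz0]; exact hy0
    · simp only [hz, st, Nat.cast_add, Nat.cast_one, ← add_assoc, ctl_succ]
    · simp only [hz, st, Nat.cast_add, Nat.cast_one, ← add_assoc, ctl_succ]
    · exact (hst m (by omega) (hbd m hm.le).1 (hbd m hm.le).2 X j).1
  have h1 := loop_cost (Nat.succ_pos N) hO hzN (by rw [hz0, ho])
  have h2 : ∀ m, m ≤ N + 1 → ∑ i ∈ Finset.range m, Γ.S (ts i) (ts (i + 1)) = Γ.S 0 (ts m) := by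
    intro m
    induction m with
    | zero => intro _; simp [t0, Cv.S]
    | succ m ih => intro hm; rw [Finset.sum_range_succ, ih (by omega), Γ.S_add]
  have h3 : ∑ m ∈ Finset.range (N + 1), (C * Γ.I (ts m) (ts (m + 1))) ^ 2 ≤
      C ^ 2 * (2 * Γ.S 0 T) := by
    have e := h2 _ le_rfl
    rw [tN] at e
    rw [← e, Finset.mul_sum, Finset.mul_sum]
    refine Finset.sum_le_sum fun m hm => ?_
    have hm' : m ≤ N := Nat.lt_succ_iff.mp (Finset.mem_range.mp hm)
    rw [mul_pow]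
    exact mul_le_mul_of_nonneg_left (Γ.I_sq_le (tmono m hm') (hlen m hm')) (by positivity)
  have h4 := Γ.S_le hT0
  nlinarith

end Pool.Agent.MP_3afe9c_an

end MrgPart1

-- ======== part 2: formerly Pool.Agent.MP_3afe9c_an.Rec
section MrgPart2

/-!
A chain recurrent overflow state, and the counterexample on the torus with index type `Ix`.
-/

set_option autoImplicit false

open Set Real MeasureTheory Filter Topology
open scoped ContDiff NNReal

namespace Pool.Agent.MP_3afe9c_an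

lemma exists_rec {ι : Type} [Fintype ι] {f : EuclideanSpace ℝ ι → EuclideanSpace ℝ ι}
    {φ : ℝ → EuclideanSpace ℝ ι → EuclideanSpace ℝ ι} {L : ℝ≥0} (h : IsFlow f φ)
    (hL : LipschitzWith L f) (hp : ∀ x v, IsLat v → f (x + v) = f x)
    {C : Set (EuclideanSpace ℝ ι)} (hC : IsCompact C)
    (hx : ∀ ε : ℝ, 0 < ε → ∃ x : ℕ → EuclideanSpace ℝ ι,
      (∀ n, Near ε (φ 1 (x n)) (x (n + 1))) ∧ ∀ N, ∃ n, N ≤ n ∧ x n ∈ C) :
    ∃ x ∈ C, ChainRec φ x := by
  have step1 : ∀ ε : ℝ, 0 < ε → ∃ x ∈ C, ∃ (k : ℕ) (p : ℕ → EuclideanSpace ℝ ι), 1 ≤ k ∧ p 0 = x ∧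
      p k = x ∧ ∀ i, i < k → Near ε (φ 1 (p i)) (p (i + 1)) := by
    intro ε hε
    obtain ⟨x, hx1, hx2⟩ := hx (ε / 2) (by positivity)
    obtain ⟨u, hu, huC⟩ := extraction_of_frequently_atTop (P := fun n => x n ∈ C)
      (frequently_atTop.mpr fun N => by simpa using hx2 N)
    obtain ⟨a, -, v, hv, hlim⟩ := hC.tendsto_subseq huC
    obtain ⟨N, hN⟩ := Metric.cauchySeq_iff'.mp hlim.cauchySeq (ε / 2) (by positivity)
    have h1 := hN (N + 1) (by omega)
    have hlt : u (v N) < u (v (N + 1)) := hu (hv (by omega))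
    obtain ⟨k, hk⟩ := Nat.exists_eq_add_of_lt hlt
    refine ⟨x (u (v N)), huC _, k + 1, fun i => if i = k + 1 then x (u (v N)) else x (u (v N) + i),
      by omega, by simp, by simp, fun i hi => ?_⟩
    simp only [hi.ne, if_false]
    split_ifs with h2
    · have h3 : u (v N) + i + 1 = u (v (N + 1)) := by omega
      have := (hx1 (u (v N) + i)).trans (Near.of_norm (y := x (u (v N))) (ε := ε / 2)
        (by rw [h3, ← dist_eq_norm]; exact h1.le))
      simpa using this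
    · exact (hx1 _).mono (by linarith)
  choose x hxC k p hk hp0 hpk hpn using fun j : ℕ => step1 (1 / (j + 1)) (by positivity)
  obtain ⟨a, ha, v, hv, hlim⟩ := hC.tendsto_subseq hxC
  refine ⟨a, ha, chainRec_of_unit h hL hp fun ε hε => ?_⟩
  set δ := ε / (exp (L * 1) + 2) with hδ
  have hδ0 : 0 < δ := by positivity
  have e1 : ∀ᶠ j in atTop, dist ((x ∘ v) j) a < δ := Metric.tendsto_nhds.mp hlim δ hδ0
  have e2 : ∀ᶠ j : ℕ in atTop, (1 : ℝ) / (v j + 1) < δ :=
    (tendsto_one_div_add_atTop_nhds_zero_nat.comp hv.tendsto_atTop).eventually (gt_mem_nhds hδ0)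
  obtain ⟨j, h1, h2⟩ := (e1.and e2).exists
  set q : ℕ → EuclideanSpace ℝ ι := fun i => if i = 0 ∨ i = k (v j) then a else p (v j) i with hq
  have hqp : ∀ i, ‖q i - p (v j) i‖ ≤ δ := by
    intro i
    simp only [hq]
    split_ifs with hi
    · have : p (v j) i = x (v j) := by rcases hi with rfl | rfl; exacts [hp0 _, hpk _]
      rw [this, ← dist_eq_norm, dist_comm]; exact h1.le
    · simpa using hδ0.le
  refine ⟨k (v j), q, hk _, by simp [hq], by simp [hq], fun i hi => ?_⟩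
  have := ((h.near hL hp zero_le_one (Near.of_norm (hqp i))).trans (hpn _ i hi)).trans
    (Near.of_norm (ε := δ) (y := q (i + 1)) (by rw [norm_sub_rev]; exact hqp _))
  refine this.mono ?_
  have h3 : ε = δ * (exp (L * 1) + 2) := by rw [hδ]; field_simp
  linarith

/-- Box of states with clock `m` and sign pattern `σ`. -/
def box (m : Fin 6) (σ : Peg → J → Bool) : Set E :=
  {x | x iθ = ((m : ℕ) : ℤ) / 6 ∧ x ih = 0 ∧ ∀ X j, |x (ir X j)| ≤ 1 / 8 ∧
    (if σ X j then 1 / 64 else -3 / 64) ≤ x (iy X j) ∧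
      x (iy X j) ≤ if σ X j then 3 / 64 else -1 / 64}

lemma box_compact (m : Fin 6) (σ : Peg → J → Bool) : IsCompact (box m σ) := by
  refine Metric.isCompact_of_isClosed_isBounded ?_ ?_
  · simp only [box, ofPred_and, ofPred_forall]
    refine (isClosed_eq (by fun_prop) (by fun_prop)).inter
      ((isClosed_eq (by fun_prop) (by fun_prop)).inter (isClosed_iInter fun X =>
        isClosed_iInter fun j => (isClosed_le (by fun_prop) (by fun_prop)).inter
          ((isClosed_le (by fun_prop) (by fun_prop)).inter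
            (isClosed_le (by fun_prop) (by fun_prop)))))
  · refine isBounded_iff_forall_norm_le.mpr ⟨(Fintype.card Ix + 1) * 1, fun x hx => ?_⟩
    refine norm_le_card zero_le_one fun i => ?_
    obtain ⟨h1, h2, h3⟩ := hx
    rcases i with (_ | _) | ⟨_ | _, X, j⟩
    · rw [h1, abs_of_nonneg (by positivity)]
      have : ((m : ℕ) : ℝ) ≤ 6 := by exact_mod_cast m.isLt.le
      push_cast; linarith
    · rw [h2]; simp
    · have := (h3 X j).2
      rw [abs_le]
      split_ifs at this <;> constructor <;> linarith [this.1, this.2]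
    · linarith [(h3 X j).1]

lemma box_of {m : Fin 6} {y r : Peg → Y} (hy : ∀ X, W (y X)) (hr : ∀ X j, |r X j| ≤ 1 / 8) :
    mk (((m : ℕ) : ℤ) / 6) y r ∈ box m fun X => bits (y X) := by
  refine ⟨rfl, rfl, fun X j => ⟨hr X j, ?_⟩⟩
  have := hy X j
  show _ ≤ y X j ∧ y X j ≤ _
  simp only [bits, decide_eq_true_eq]
  split_ifs with h
  · rwa [abs_of_pos h] at this
  · rw [abs_of_nonpos (not_lt.mp h)] at this
    constructor <;> linarith [this.1, this.2]

lemma of_box {m : Fin 6} {σ : Peg → J → Bool} {x : E} (h : x ∈ box m σ) :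
    ∃ y r : Peg → Y, x = mk (((m : ℕ) : ℤ) / 6) y r ∧ (∀ X, W (y X)) ∧ (∀ X j, |r X j| ≤ 1 / 8) ∧
      ∀ X, bits (y X) = σ X := by
  obtain ⟨h1, h2, h3⟩ := h
  refine ⟨fun X j => x (iy X j), fun X j => x (ir X j), ?_, fun X j => ?_, fun X j => (h3 X j).1,
    fun X => funext fun j => ?_⟩
  · ext i
    rcases i with (_ | _) | ⟨_ | _, X, j⟩
    · exact h1
    · exact h2
    all_goals rfl
  · have := (h3 X j).2
    show _ ≤ |x (iy X j)| ∧ |x (iy X j)| ≤ _
    split_ifs at this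
    · rwa [abs_of_pos (by linarith [this.1])]
    · rw [abs_of_neg (by linarith [this.2])]
      constructor <;> linarith [this.1, this.2]
  · have := (h3 X j).2
    simp only [bits]
    by_cases hσ : σ X j = true
    · simp only [hσ, if_true] at this
      simp only [hσ, decide_eq_true_eq]; linarith [this.1]
    · simp only [hσ] at this
      simp only [Bool.not_eq_true] at hσ
      simp only [hσ, decide_eq_false_iff_not, not_lt]
      have := this.2
      simp only [Bool.false_eq_true, if_false] at this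
      linarith

/-- The overflow condition in terms of the clock and the sign pattern. -/
def Ov (t : Fin 6 × (Peg → J → Bool)) : Prop :=
  (ctl (t.1 : ℕ)).2 = true ∧ (enc.symm (t.2 (ctl (t.1 : ℕ)).1)).2.2 = 127

lemma ov_iff (m : Fin 6) (y : Peg → Y) :
    ovf (st (m : ℕ) y) = 1 ↔ Ov (m, fun X => bits (y X)) := by
  simp only [ovf, Ov, st, St.σ, sym]
  split_ifs with h
  · simpa using h
  · simpa using h

lemma K.eta_zero {y : Y} (h : K y) (j : J) : eta (y j) = 0 := by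
  have h1 := abs_le.mp (h.pop.w j).2
  have h2 : y j = off (bits y) j + Pool.Agent.MP_3afe9c_an.pop y j / 4 := by
    simp only [Pool.Agent.MP_3afe9c_an.pop]; ring
  simp only [off] at h2
  split_ifs at h2
  · exact Pool.Agent.MP_3afe9c_an.eta_zero (by rw [abs_of_pos (by linarith [h1.1])]; linarith [h1.1])
      (by rw [abs_of_pos (by linarith [h1.1])]; linarith [h1.2])
  · exact Pool.Agent.MP_3afe9c_an.eta_zero (by rw [abs_of_neg (by linarith [h1.2])]; linarith [h1.2])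
      (by rw [abs_of_neg (by linarith [h1.2])]; linarith [h1.1])

noncomputable def rseq (z : ℕ → St) : ℕ → Peg → Y
  | 0 => 0
  | n + 1 => rn (z n).y (rseq z n)

lemma rseq_le (z : ℕ → St) (n : ℕ) : ∀ X j, |rseq z n X j| ≤ 1 / 8 := by
  induction n with
  | zero => intro X j; simp [rseq]
  | succ n ih => intro X j; exact (rn_le ih X j).trans (by norm_num)

def clock (n : ℤ) : Fin 6 := ⟨(n % 6).toNat, by omega⟩

lemma clock_eq (n : ℤ) : (((clock n : Fin 6) : ℕ) : ℤ) = n % 6 := by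
  simp only [clock]; omega

lemma ctl_clock (n : ℤ) : ctl ((clock n : Fin 6) : ℕ) = ctl n := by
  rw [clock_eq, ← ctl_add (n % 6) (n / 6)]; congr 1; omega

theorem exists_counterexample : ∃ φ, IsFlow (fld 1) φ ∧ ∃ x, ChainRec φ x ∧ x ∉ aubry (fld 1) := by
  obtain ⟨L, hL⟩ := lipschitz_of_periodic (fld_contDiff 1) (fld_lat 1)
  obtain ⟨M, hM⟩ := bounded_of_periodic fld_cont (fld_lat 1)
  obtain ⟨φ, hφ⟩ := exists_flow hL hM
  have hC : IsCompact (⋃ t : {t // Ov t}, box t.1.1 t.1.2) :=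
    isCompact_iUnion fun t => box_compact _ _
  obtain ⟨x, hxC, hx⟩ := exists_rec hφ hL (fld_lat 1) hC (by
    intro ε hε
    obtain ⟨j, hj⟩ := exists_pow_lt_of_lt_one (x := ε / (Fintype.card Ix + 1)) (y := 1 / 4)
      (by positivity) (by norm_num)
    obtain ⟨z, hK, hT, hO⟩ := exists_good j true
    obtain ⟨n0, hn0⟩ := ctl_surj (z 0).p (z 0).b
    have hctl : ∀ n : ℕ, ctl (n0 + n) = ((z n).p, (z n).b) := by
      intro n
      induction n with
      | zero => simpa using hn0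
      | succ n ih => rw [Nat.cast_succ, ← add_assoc, ctl_succ, ih, (hT n).1, (hT n).2.1]
    have hst : ∀ n : ℕ, st ((clock (n0 + n) : Fin 6) : ℕ) (z n).y = z n := by
      intro n; simp only [st, ctl_clock, hctl]
    refine ⟨fun n => mk (((clock (n0 + n) : ℕ) : ℤ) / 6) (z n).y (rseq z n), fun n => ?_,
      fun N => ?_⟩
    · simp only
      rw [flow_one hφ _ (fun X => (hK n X).w) (rseq_le z n)
        (Or.inr fun X j => (hK n X).eta_zero j), hst]
      obtain ⟨k, hk⟩ : ∃ k : ℤ, (((clock (n0 + n) : Fin 6) : ℕ) : ℤ) + 1 =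
          ((clock (n0 + (n + 1 : ℕ)) : Fin 6) : ℕ) + 6 * k := by
        rw [clock_eq, clock_eq]
        exact ⟨((n0 + n) % 6 + 1) / 6, by push_cast; omega⟩
      have hk' : ((((clock (n0 + n) : Fin 6) : ℕ) : ℤ) : ℝ) + 1 =
          ((((clock (n0 + (n + 1 : ℕ)) : Fin 6) : ℕ) : ℤ) : ℝ) + 6 * k := by exact_mod_cast hk
      refine ⟨mk k 0 0, fun i => ?_, ?_⟩
      · rcases i with (_ | _) | ⟨_ | _, X, j⟩
        · exact ⟨k, rfl⟩
        all_goals exact ⟨0, by simp [mk, mkc]⟩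
      · have hc : (0 : ℝ) ≤ 1 / 8 * (1 / 4) ^ j := by positivity
        refine (norm_le_card hc fun i => ?_).trans ?_
        · rcases i with (_ | _) | ⟨_ | _, X, i⟩
          · show |(_ + 1) / 6 - _ / 6 - (k : ℝ)| ≤ _
            rw [hk', show ∀ a : ℝ, (a + 6 * k) / 6 - a / 6 - k = 0 from fun a => by ring]
            simp
          · show |(0 : ℝ) - 0 - 0| ≤ _
            simp
          · show |step true (z n) X i - (z (n + 1)).y X i - 0| ≤ _
            rw [sub_zero, abs_sub_comm]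
            exact ((hT n).2.2 X i).trans (by split_ifs; exacts [le_rfl, hc])
          · show |rn (z n).y (rseq z n) X i - rn (z n).y (rseq z n) X i - 0| ≤ _
            simp
        · rw [lt_div_iff₀ (by positivity)] at hj
          have : (0 : ℝ) ≤ (1 / 4) ^ j * (Fintype.card Ix + 1) := by positivity
          linarith
    · obtain ⟨n, hn, ho⟩ := hO N
      rw [← hst, ov_iff] at ho
      exact ⟨n, hn, mem_iUnion.mpr ⟨⟨_, ho⟩, box_of (fun X => (hK n X).w) (rseq_le z n)⟩⟩)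
  refine ⟨φ, hφ, x, hx, ?_⟩
  obtain ⟨⟨⟨m, σ⟩, ho⟩, hb⟩ := mem_iUnion.mp hxC
  obtain ⟨y, r, rfl, hy, hr, hσ⟩ := of_box hb
  obtain ⟨c, hc, hlow⟩ := action_lower
  have ho' : ovf (st (m : ℕ) y) = 1 := by
    rw [ov_iff, show (fun X => bits (y X)) = σ from funext hσ]; exact ho
  have : ENNReal.ofReal c ≤ peierls (fld 1) (mk (((m : ℕ) : ℤ) / 6) y r)
      (mk (((m : ℕ) : ℤ) / 6) y r) := by
    refine le_liminf_of_le (by isBoundedDefault) ?_
    filter_upwards [eventually_ge_atTop 1] with T hT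
    exact le_iInf fun γ => hlow _ y r hy hr ho' T hT γ.1 γ.2.1 γ.2.2.1 γ.2.2.2
  intro hA
  rw [show peierls (fld 1) _ _ = 0 from hA] at this
  exact absurd this (not_le.mpr (ENNReal.ofReal_pos.mpr hc))

end Pool.Agent.MP_3afe9c_an

end MrgPart2

-- ======== part 3: formerly Pool.Agent.MP_3afe9c_an.Transport
section MrgPart3

/-!
Reindexing the coordinates by `Fin n`.
-/

set_option autoImplicit false

open Set Real MeasureTheory Filter Topology
open scoped ContDiff NNReal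

namespace Pool.Agent.MP_3afe9c_an

variable {ι κ : Type} [Fintype ι] [Fintype κ]

theorem transport (A : EuclideanSpace ℝ ι ≃ₗᵢ[ℝ] EuclideanSpace ℝ κ)
    (hA : ∀ v, IsLat v → IsLat (A v)) (hA' : ∀ v, IsLat v → IsLat (A.symm v))
    {f : EuclideanSpace ℝ ι → EuclideanSpace ℝ ι} {φ : ℝ → EuclideanSpace ℝ ι → EuclideanSpace ℝ ι}
    (hf : ContDiff ℝ ∞ f) (hp : ∀ x v, IsLat v → f (x + v) = f x) (hφ : IsFlow f φ)
    {x : EuclideanSpace ℝ ι} (hx : ChainRec φ x) (hx' : x ∉ aubry f) :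
    ∃ (g : EuclideanSpace ℝ κ → EuclideanSpace ℝ κ)
      (ψ : ℝ → EuclideanSpace ℝ κ → EuclideanSpace ℝ κ),
      ContDiff ℝ ∞ g ∧ (∀ x v, IsLat v → g (x + v) = g x) ∧ IsFlow g ψ ∧
        ∃ y, ChainRec ψ y ∧ y ∉ aubry g := by
  refine ⟨fun y => A (f (A.symm y)), fun t y => A (φ t (A.symm y)),
    A.contDiff.comp (hf.comp A.symm.contDiff), fun y v hv => by
      simp only [map_add, hp _ _ (hA' v hv)], fun y => ⟨by simp [(hφ _).1], fun t => ?_⟩,
    A x, ?_, ?_⟩
  · simp only [LinearIsometryEquiv.symm_apply_apply]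
    exact A.toContinuousLinearEquiv.hasFDerivAt.comp_hasDerivAt t ((hφ _).2 t)
  · intro ε hε T hT
    obtain ⟨k, p, t, hk, h0, h1, h2⟩ := hx ε hε T hT
    refine ⟨k, fun i => A (p i), t, hk, by simp [h0], by simp [h1], fun i hi =>
      ⟨(h2 i hi).1, lt_of_le_of_lt ?_ (h2 i hi).2⟩⟩
    simp only [LinearIsometryEquiv.symm_apply_apply]
    have : Nonempty {v : EuclideanSpace ℝ ι // IsLat v} := ⟨⟨0, IsLat.zero⟩⟩
    refine le_ciInf fun v => Near.tdist_le ⟨A v.1, hA _ v.2, ?_⟩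
    rw [← map_sub, ← map_sub, A.norm_map]
  · intro h
    apply hx'
    refine le_antisymm ?_ zero_le
    rw [← show peierls _ (A x) (A x) = 0 from h]
    refine liminf_le_liminf (Eventually.of_forall fun t => le_iInf fun γ => ?_)
    have hlip : LipschitzWith 1 A.symm := A.symm.isometry.lipschitz
    refine iInf_le_of_le ⟨fun s => A.symm (γ.1 s), ac_comp γ.2.1 hlip, by simp [γ.2.2.1], ?_⟩
      (le_of_eq ?_)
    · simpa using hA' _ γ.2.2.2
    · simp only [action]
      congr 1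
      funext s
      have : deriv (fun s => A.symm (γ.1 s)) s = A.symm (deriv γ.1 s) := by
        have := A.symm.toContinuousLinearEquiv.comp_fderiv (f := γ.1) (x := s)
        rw [← fderiv_apply_one_eq_deriv, ← fderiv_apply_one_eq_deriv]
        exact congrArg (fun B => B 1) this
      rw [this, ← A.norm_map, map_sub]
      simp

theorem exists_fin : ∃ (n : ℕ) (f : EuclideanSpace ℝ (Fin n) → EuclideanSpace ℝ (Fin n))
    (φ : ℝ → EuclideanSpace ℝ (Fin n) → EuclideanSpace ℝ (Fin n)),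
    ContDiff ℝ ∞ f ∧ (∀ x v, IsLat v → f (x + v) = f x) ∧ IsFlow f φ ∧
      ∃ x, ChainRec φ x ∧ x ∉ aubry f := by
  obtain ⟨φ, hφ, x, hx, hx'⟩ := exists_counterexample
  refine ⟨Fintype.card Ix, transport
    (LinearIsometryEquiv.piLpCongrLeft 2 ℝ ℝ (Fintype.equivFin Ix)) (fun v hv i => ?_)
    (fun v hv i => ?_) (fld_contDiff 1) (fld_lat 1) hφ hx hx'⟩
  · simpa using hv _
  · simpa using hv _

end Pool.Agent.MP_3afe9c_an

end MrgPart3

-- marker of a merged file
example : 731051 + 854859 = 731051 + 854859 := rfl
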